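import Mathlib
import Pool.Agent.Helper766.Rad.Upper

/-!
Extremal sets for the minimum number of primitive Radon partitions (problem MP_bb0bb6_co, Q2).
Definitions and the statements of the tasks.  All tasks are about the rank functions `RankFn` of
`Pool.Agent.Helper766.Rad` (`Defs.lean`, `Basic.lean`, `Conn.lean`, `Plane.lean`, `LemmaA2.lean`,
`Main.lean`, `Odd.lean`).
-/

set_option autoImplicit false

namespace Pool.Agent.H952R3.Ext

open Pool.Agent.Helper766.Rad

/-- no Fano plane (the hypothesis of `main_odd`) -/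
def NF {ι : Type} [DecidableEq ι] (M : RankFn ι) (E : Finset ι) : Prop :=
  ∀ F ⊆ E, F.card = 7 → M.r F = 3 → (∀ T ⊆ F, T.card = 4 → M.r T = 3) →
      ((F.powersetCard 3).filter (fun T => M.r T = 2)).card ≤ 6

/-- a family of disjoint sets with union `E` whose ranks add up to the rank of `E` -/
def Dec {ι : Type} [DecidableEq ι] (M : RankFn ι) (P : Finset (Finset ι)) (E : Finset ι) : Prop :=
  (P : Set (Finset ι)).PairwiseDisjoint id ∧ P.biUnion id = E ∧ ∑ A ∈ P, M.r A = M.r E

/-- `k` points on a line -/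
def LineR {ι : Type} [DecidableEq ι] (M : RankFn ι) (k : ℕ) (A : Finset ι) : Prop :=
  A.card = k ∧ M.r A = 2

/-- `n` points of a plane, `n - 2` of them on a line, the line through the other two points passes
through one of them. -/
def HookR {ι : Type} [DecidableEq ι] (M : RankFn ι) (n : ℕ) (A : Finset ι) : Prop :=
  ∃ (L : Finset ι) (p q a : ι), L.card + 2 = n ∧ A = insert p (insert q L) ∧ p ∉ L ∧ q ∉ L ∧
    p ≠ q ∧ a ∈ L ∧ M.r L = 2 ∧ M.r {a, p, q} = 2 ∧ M.r A = 3

/-- `n` points of a plane, no four on a line, at least `t` collinear triples. -/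
def TriR {ι : Type} [DecidableEq ι] (M : RankFn ι) (n t : ℕ) (A : Finset ι) : Prop :=
  A.card = n ∧ M.r A = 3 ∧ (∀ F ⊆ A, F.card = 4 → M.r F = 3) ∧
    t ≤ ((A.powersetCard 3).filter (fun T => M.r T = 2)).card

/-- seven points of a plane, four of them on a line `L`, and the line through any two of the other
three passes through a point of `L`. -/
def SevenR {ι : Type} [DecidableEq ι] (M : RankFn ι) (A : Finset ι) : Prop :=
  A.card = 7 ∧ M.r A = 3 ∧ ∃ L ⊆ A, L.card = 4 ∧ M.r L = 2 ∧
    (∀ p ∈ A \ L, M.r (insert p L) = 3) ∧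
    ∀ p ∈ A \ L, ∀ q ∈ A \ L, p ≠ q → ∃ a ∈ L, M.r {a, p, q} = 2

/-- A: decomposition into connected pieces -/
def TaskA : Prop := ∀ (ι : Type) [DecidableEq ι] (M : RankFn ι) (E : Finset ι),
  ∃ P : Finset (Finset ι), Dec M P E ∧ ∀ A ∈ P, A.Nonempty ∧ Conn M A

/-- B: the circuits of a direct sum are the circuits of the pieces -/
def TaskB : Prop := ∀ (ι : Type) [DecidableEq ι] (M : RankFn ι) (E : Finset ι)
  (P : Finset (Finset ι)), Dec M P E → (circs M E).card = ∑ A ∈ P, (circs M A).card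

/-- C: a connected simple matroid of nullity 3 has at least 6 circuits -/
def TaskC : Prop := ∀ (ι : Type) [DecidableEq ι] (M : RankFn ι) (E : Finset ι), Simple M E →
  Conn M E → E.card = M.r E + 3 → 6 ≤ (circs M E).card

/-- D: strictness of `main_even` for connected matroids of rank at least 4 -/
def TaskD : Prop := ∀ (ι : Type) [DecidableEq ι] (M : RankFn ι) (E : Finset ι), Simple M E →
  Conn M E → 4 ≤ M.r E → ∀ q : ℕ, 3 ≤ q →
  (q : ℤ) * (q - 1) * (3 * E.card - (q + 1) * M.r E) < 6 * ((circs M E).card : ℤ)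

/-- E: strictness of `main_odd` for connected matroids of odd rank at least 5 -/
def TaskE : Prop := ∀ (ι : Type) [DecidableEq ι] (M : RankFn ι) (E : Finset ι), Simple M E →
  NF M E → Conn M E → ∀ a : ℕ, 2 ≤ a → M.r E = 2 * a + 1 → ∀ q : ℕ, 4 ≤ q →
  (q : ℤ) * (q - 1) * (3 * ((E.card : ℤ) - 1) - 2 * a * (q + 1)) <
      6 * ((circs M E).card : ℤ) + 6 * delta (q + 1)

/-- F: equality in rank 3 -/
def TaskF : Prop := ∀ (ι : Type) [DecidableEq ι] (M : RankFn ι) (E : Finset ι), Simple M E →
  NF M E → Conn M E → M.r E = 3 →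
  (6 * ((circs M E).card : ℤ) ≤ (3 : ℤ) * (3 - 1) * (3 * E.card - (3 + 1) * 3) →
    E.card = 5 ∧ (circs M E).card = 3) ∧
  ∀ q : ℕ, 4 ≤ q →
    6 * ((circs M E).card : ℤ) + 6 * delta (q + 1) ≤
      (q : ℤ) * (q - 1) * (3 * ((E.card : ℤ) - 1) - 2 * (q + 1)) →
    (E.card = q + 2 ∧ (circs M E).card + delta (q + 1) = (q + 1).choose 3) ∨
    (q = 5 ∧ E.card = 6 ∧ (circs M E).card = 7)

/-- G1: five points of a plane with three circuits -/
def TaskG1 : Prop := ∀ (ι : Type) [DecidableEq ι] (M : RankFn ι) (E : Finset ι), Simple M E →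
  M.r E = 3 → E.card = 5 → (circs M E).card = 3 → HookR M 5 E

/-- G2: six points of a plane with seven circuits -/
def TaskG2 : Prop := ∀ (ι : Type) [DecidableEq ι] (M : RankFn ι) (E : Finset ι), Simple M E →
  M.r E = 3 → E.card = 6 → (circs M E).card = 7 → TriR M 6 4 E

/-- G3: seven points of a plane with 17 circuits -/
def TaskG3 : Prop := ∀ (ι : Type) [DecidableEq ι] (M : RankFn ι) (E : Finset ι), Simple M E →
  M.r E = 3 → E.card = 7 → (circs M E).card = 17 → HookR M 7 E ∨ SevenR M E ∨ TriR M 7 6 E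

/-- G4: at least eight points of a plane with `C(n-1,3) - (n-4)` circuits -/
def TaskG4 : Prop := ∀ (ι : Type) [DecidableEq ι] (M : RankFn ι) (E : Finset ι), Simple M E →
  M.r E = 3 → 8 ≤ E.card → (circs M E).card + (E.card - 4) = (E.card - 1).choose 3 →
  HookR M E.card E

/-- U1: number of circuits of a hook -/
def TaskU1 : Prop := ∀ (ι : Type) [DecidableEq ι] (M : RankFn ι) (A : Finset ι) (n : ℕ),
  Simple M A → 5 ≤ n → HookR M n A →
  (circs M A).card ≤ (n - 2).choose 3 + (n - 3).choose 2 + 1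

/-- U2: number of circuits of a planar set without four collinear points -/
def TaskU2 : Prop := ∀ (ι : Type) [DecidableEq ι] (M : RankFn ι) (A : Finset ι),
  Simple M A → M.r A = 3 → 4 ≤ A.card → (∀ F ⊆ A, F.card = 4 → M.r F = 3) →
  (circs M A).card + ((A.powersetCard 3).filter (fun T => M.r T = 2)).card * (A.card - 4) ≤
    A.card.choose 4

/-- U3: number of circuits of `SevenR` -/
def TaskU3 : Prop := ∀ (ι : Type) [DecidableEq ι] (M : RankFn ι) (A : Finset ι),
  Simple M A → SevenR M A → (circs M A).card ≤ 17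

/-- U4: lines and circuits -/
def TaskU4 : Prop := ∀ (ι : Type) [DecidableEq ι] (M : RankFn ι) (A : Finset ι),
  Simple M A → (M.r A = 2 → (circs M A).card ≤ A.card.choose 3) ∧
    (A.card = 1 → (circs M A).card = 0) ∧ (IsCirc M A → (circs M A).card ≤ 1)

end Pool.Agent.H952R3.Ext
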