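import Mathlib
import Pool.Agent.H952R3.Ext.Stmts

set_option autoImplicit false

namespace Pool.Agent.H952R3.Ext

open Pool.Agent.Helper766.Rad

variable {ι : Type} [DecidableEq ι]

/-- circuits of a direct sum of two sets -/
theorem circs_sum {M : RankFn ι} {A B : Finset ι} (hd : Disjoint A B)
    (hr : M.r A + M.r B ≤ M.r (A ∪ B)) :
    (circs M (A ∪ B)).card = (circs M A).card + (circs M B).card := by
  rw [← Finset.card_union_of_disjoint]
  · congr 1
    ext C
    rw [Finset.mem_union, mem_circs, mem_circs, mem_circs]
    constructor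
    · rintro ⟨h1, h2⟩
      by_cases hA : C ⊆ A
      · exact Or.inl ⟨hA, h2⟩
      · by_cases hB : C ⊆ B
        · exact Or.inr ⟨hB, h2⟩
        · exfalso
          have e1 : C ∩ A ∪ C ∩ B = C := by
            rw [← Finset.inter_union_distrib_left]
            exact Finset.inter_eq_left.mpr h1
          have p1 : C ∩ A ⊂ C := by
            rw [Finset.ssubset_iff_subset_ne]
            exact ⟨Finset.inter_subset_left, fun h => hA (Finset.inter_eq_left.mp h)⟩
          have p2 : C ∩ B ⊂ C := by
            rw [Finset.ssubset_iff_subset_ne]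
            exact ⟨Finset.inter_subset_left, fun h => hB (Finset.inter_eq_left.mp h)⟩
          have i1 := h2.indep_of_ssubset p1
          have i2 := h2.indep_of_ssubset p2
          have i3 := mod_sub2 M (X := A) (Y := B) (A := C ∩ A) (B := C ∩ B) (k := 0) (by omega)
            Finset.inter_subset_right Finset.inter_subset_right
          rw [e1] at i3
          have i4 : (C ∩ A).card + (C ∩ B).card = C.card := by
            rw [← Finset.card_union_of_disjoint, e1]
            exact Finset.disjoint_of_subset_left Finset.inter_subset_right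
              (Finset.disjoint_of_subset_right Finset.inter_subset_right hd)
          have i5 := h2.1
          omega
    · rintro (⟨h1, h2⟩ | ⟨h1, h2⟩)
      · exact ⟨h1.trans Finset.subset_union_left, h2⟩
      · exact ⟨h1.trans Finset.subset_union_right, h2⟩
  · rw [Finset.disjoint_left]
    intro C h1 h2
    rw [mem_circs] at h1 h2
    obtain ⟨w, hw⟩ := h1.2.nonempty
    exact Finset.disjoint_left.mp hd (h1.1 hw) (h2.1 hw)

theorem r_biUnion_le (M : RankFn ι) (P : Finset (Finset ι)) :
    M.r (P.biUnion id) ≤ ∑ A ∈ P, M.r A := by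
  induction P using Finset.induction_on with
  | empty => simp [M.empty]
  | insert A P hA ih =>
    rw [Finset.biUnion_insert, Finset.sum_insert hA]
    have := r_union_le M (id A) (P.biUnion id)
    simp only [id] at this ⊢
    omega

theorem circs_empty (M : RankFn ι) : (circs M (∅ : Finset ι)).card = 0 := by
  rw [Finset.card_eq_zero]
  apply Finset.eq_empty_of_forall_notMem
  intro C hC
  rw [mem_circs] at hC
  obtain ⟨w, hw⟩ := hC.2.nonempty
  exact absurd (hC.1 hw) (Finset.notMem_empty w)

theorem taskB : TaskB := by
  intro ι _ M E P hP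
  induction P using Finset.induction_on generalizing E with
  | empty =>
    obtain ⟨-, h2, -⟩ := hP
    simp only [Finset.biUnion_empty] at h2
    subst h2
    simp [circs_empty]
  | insert A P hA ih =>
    obtain ⟨h1, h2, h3⟩ := hP
    rw [Finset.biUnion_insert] at h2
    simp only [id] at h2
    rw [Finset.sum_insert hA] at h3 ⊢
    have hd : Disjoint A (P.biUnion id) := by
      rw [Finset.disjoint_biUnion_right]
      intro B hB
      exact h1 (by simp) (by simp [hB]) (fun h => hA (h ▸ hB))
    have hb := r_biUnion_le M P
    have hu := r_union_le M A (P.biUnion id)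
    have h2' : A ∪ P.biUnion id = E := h2
    rw [h2'] at hu
    have hs : ∑ A ∈ P, M.r A = M.r (P.biUnion id) := by omega
    have hD : Dec M P (P.biUnion id) := by
      refine ⟨?_, rfl, hs⟩
      apply h1.subset
      simp
    have i1 := ih _ hD
    have i2 := circs_sum (M := M) hd (by rw [h2']; omega)
    rw [h2', i1] at i2
    exact i2

theorem dec_union {M : RankFn ι} {P Q : Finset (Finset ι)} {A B : Finset ι} (hP : Dec M P A)
    (hQ : Dec M Q B) (hPn : ∀ X ∈ P, X.Nonempty) (hd : Disjoint A B)
    (hr : M.r A + M.r B ≤ M.r (A ∪ B)) : Dec M (P ∪ Q) (A ∪ B) := by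
  obtain ⟨p1, p2, p3⟩ := hP
  obtain ⟨q1, q2, q3⟩ := hQ
  have sA : ∀ X ∈ P, X ⊆ A := fun X hX => by
    rw [← p2]; exact Finset.subset_biUnion_of_mem id hX
  have sB : ∀ X ∈ Q, X ⊆ B := fun X hX => by
    rw [← q2]; exact Finset.subset_biUnion_of_mem id hX
  have hPQ : Disjoint P Q := by
    rw [Finset.disjoint_left]
    intro X h1 h2
    obtain ⟨w, hw⟩ := hPn X h1
    exact Finset.disjoint_left.mp hd (sA X h1 hw) (sB X h2 hw)
  refine ⟨?_, ?_, ?_⟩
  · rw [Finset.coe_union]
    intro X hX Y hY hne
    rcases hX with hX | hX <;> rcases hY with hY | hY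
    · exact p1 hX hY hne
    · exact Finset.disjoint_of_subset_left (sA X hX) (Finset.disjoint_of_subset_right (sB Y hY) hd)
    · exact (Finset.disjoint_of_subset_left (sA Y hY)
        (Finset.disjoint_of_subset_right (sB X hX) hd)).symm
    · exact q1 hX hY hne
  · rw [Finset.union_biUnion, p2, q2]
  · rw [Finset.sum_union hPQ, p3, q3]
    have := r_union_le M A B
    omega

theorem taskA : TaskA := by
  intro ι _ M E
  generalize hn : E.card = n
  induction n using Nat.strong_induction_on generalizing E with
  | _ n ih =>
  subst hn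
  rcases E.eq_empty_or_nonempty with h0 | hne
  · subst h0
    exact ⟨∅, ⟨by simp, by simp, by simp [M.empty]⟩, by simp⟩
  · by_cases hc : Conn M E
    · refine ⟨{E}, ⟨by simp, by simp, by simp⟩, ?_⟩
      intro A hA
      rw [Finset.mem_singleton] at hA
      subst hA
      exact ⟨hne, hc⟩
    · unfold Conn at hc
      push Not at hc
      obtain ⟨A, hA, hAn, hAne, hrA⟩ := hc
      have hAc : A.card < E.card := Finset.card_lt_card
        (Finset.ssubset_iff_subset_ne.mpr ⟨hA, hAne⟩)
      have hsd : (E \ A).card + A.card = E.card := Finset.card_sdiff_add_card_eq_card hA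
      have hApos := Finset.card_pos.mpr hAn
      obtain ⟨P, hP, hP'⟩ := ih _ hAc A rfl
      obtain ⟨Q, hQ, hQ'⟩ := ih _ (show (E \ A).card < E.card by omega) (E \ A) rfl
      have hU : A ∪ (E \ A) = E := Finset.union_sdiff_of_subset hA
      have := dec_union hP hQ (fun X hX => (hP' X hX).1) Finset.disjoint_sdiff
        (by rw [hU]; exact hrA)
      rw [hU] at this
      refine ⟨P ∪ Q, this, ?_⟩
      intro X hX
      rw [Finset.mem_union] at hX
      rcases hX with hX | hX
      · exact hP' X hX
      · exact hQ' X hX

end Pool.Agent.H952R3.Ext
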