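import Mathlib
import Pool.Agent.H952R3.Ext.Stmts

set_option autoImplicit false

namespace Pool.Agent.H952R3.Ext

open Pool.Agent.Helper766.Rad

variable {ι : Type} [DecidableEq ι]

/-- the rank 3 bound -/
theorem rank3_key {M : RankFn ι} {E : Finset ι} (hs : Simple M E) (hF : NF M E) (hc : Conn M E)
    (hr3 : M.r E = 3) : 4 ≤ E.card ∧
      (E.card - 1).choose 3 ≤ (circs M E).card + delta (E.card - 1) := by
  have h3c : 3 ≤ E.card := by rw [← hr3]; exact r_le_card M E
  have h2 : 2 ≤ E.card := by omega
  obtain ⟨x, hx⟩ : E.Nonempty := by rw [← Finset.card_pos]; omega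
  have hn4 : 4 ≤ E.card := by
    have h5 := r_le_card M (E.erase x)
    have h6 := Finset.card_erase_add_one hx
    rw [(hc.nl h2 hx).2] at h5
    omega
  refine ⟨hn4, ?_⟩
  rcases Nat.lt_or_ge E.card 6 with h6 | h6
  · rcases Nat.lt_or_ge E.card 5 with h5 | h5
    · have h4 : E.card = 4 := by omega
      have i1 := main_even hs 2
      rw [hr3, h4] at i1
      have : 1 ≤ (circs M E).card := by
        have : (6 : ℤ) ≤ 6 * ((circs M E).card : ℤ) := by
          refine le_trans (le_of_eq ?_) i1
          norm_num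
        have : (1 : ℤ) ≤ (circs M E).card := by linarith
        exact_mod_cast this
      rw [h4]
      have e1 : Nat.choose 3 3 = 1 := rfl
      simp only [show 4 - 1 = 3 by rfl, e1]
      omega
    · have h4 : E.card = 5 := by omega
      have i1 := main_even hs 3
      rw [hr3, h4] at i1
      have : 3 ≤ (circs M E).card := by
        have : (18 : ℤ) ≤ 6 * ((circs M E).card : ℤ) := by
          refine le_trans (le_of_eq ?_) i1
          norm_num
        have : (3 : ℤ) ≤ (circs M E).card := by linarith
        exact_mod_cast this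
      rw [h4]
      have e1 : Nat.choose 4 3 = 4 := rfl
      have e2 : delta 4 = 1 := rfl
      simp only [show 5 - 1 = 4 by rfl, e1, e2]
      omega
  · have i1 := Plane.rank3_bound M E hs hr3 h6 (fun h7 hT =>
      hF E (Finset.Subset.refl E) h7 hr3 hT)
    unfold delta
    have e1 : (E.card - 1 = 5) ↔ (E.card = 6) := by omega
    simp only [e1]
    omega

/-- equality in `arith_delta` -/
theorem arith_delta_strict (i q : ℕ) (hi : 3 ≤ i) (hq : 4 ≤ q) (h1 : i ≠ q + 1)
    (h2 : ¬ (q = 5 ∧ i = 5)) :
    (q : ℤ) * (q - 1) * (3 * i - 2 * (q + 1)) + 6 * delta i <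
      (i : ℤ) * (i - 1) * (i - 2) + 6 * delta (q + 1) := by
  have e : (i : ℤ) * (i - 1) * (i - 2) - (q : ℤ) * (q - 1) * (3 * i - 2 * (q + 1)) =
      ((i : ℤ) - q) * ((i : ℤ) - q - 1) * ((i : ℤ) + 2 * q - 2) := by ring
  have hiZ : (3 : ℤ) ≤ i := by exact_mod_cast hi
  have hqZ : (4 : ℤ) ≤ q := by exact_mod_cast hq
  rcases Nat.lt_or_ge (q + 1) i with h | h
  · obtain ⟨u, hu⟩ : ∃ u, i = q + 1 + (u + 1) := ⟨i - q - 2, by omega⟩
    have h1 : delta i ≤ delta (q + 1) + (u + 2) := by
      unfold delta; split_ifs <;> omega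
    have h2 : (delta i : ℤ) ≤ delta (q + 1) + (u + 2) := by exact_mod_cast h1
    have h3 : (i : ℤ) = q + 1 + (u + 1) := by exact_mod_cast hu
    have h5 : (0 : ℤ) ≤ u := by positivity
    have h6 : 6 * ((u : ℤ) + 2) < ((u : ℤ) + 2) * ((u + 1) * (3 * q + u)) := by
      have : 6 < ((u : ℤ) + 1) * (3 * q + u) := by nlinarith
      nlinarith
    have e2 : ((i : ℤ) - q) * ((i : ℤ) - q - 1) * ((i : ℤ) + 2 * q - 2) =
        ((u : ℤ) + 2) * ((u + 1) * (3 * q + u)) := by rw [h3]; ring
    rw [e2] at e
    linarith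
  · rcases Nat.lt_or_ge i q with h' | h'
    · -- i < q
      have h1 : (delta i : ℤ) ≤ delta (q + 1) := by exact_mod_cast delta_mono h
      have h2 : 0 < ((i : ℤ) - q) * ((i : ℤ) - q - 1) := by
        have : (i : ℤ) + 1 ≤ q := by exact_mod_cast h'
        exact mul_pos_of_neg_of_neg (by linarith) (by linarith)
      have h3 : (0 : ℤ) < (i : ℤ) + 2 * q - 2 := by linarith
      have h4 := mul_pos h2 h3
      linarith
    · have hiq : i = q := by omega
      subst hiq
      have h1 : delta i < delta (i + 1) := by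
        unfold delta
        split_ifs <;> omega
      have h2 : (delta i : ℤ) < delta (i + 1) := by exact_mod_cast h1
      have e2 : ((i : ℤ) - i) * ((i : ℤ) - i - 1) * ((i : ℤ) + 2 * i - 2) = 0 := by ring
      rw [e2] at e
      linarith

theorem choose3_pred (n : ℕ) (hn : 4 ≤ n) :
    ((n - 1).choose 3 : ℤ) * 6 = ((n : ℤ) - 1) * ((n : ℤ) - 2) * ((n : ℤ) - 3) := by
  obtain ⟨k, hk⟩ : ∃ k, n - 1 = k + 3 := ⟨n - 4, by omega⟩
  have hk' : (n : ℤ) = k + 4 := by
    have : n = k + 4 := by omega
    exact_mod_cast this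
  rw [hk]
  have := Plane.R3.choose3 k
  have h8 : (((k + 3).choose 3 : ℕ) : ℤ) * 6 = (k + 3) * (k + 2) * (k + 1) := by
    exact_mod_cast this
  rw [h8, hk']
  ring

theorem taskF : TaskF := by
  intro ι _ M E hs hF hc hr3
  obtain ⟨hn4, key⟩ := rank3_key hs hF hc hr3
  have e3 := choose3_pred E.card hn4
  have keyZ : ((E.card - 1).choose 3 : ℤ) ≤ (circs M E).card + delta (E.card - 1) := by
    exact_mod_cast key
  have hnZ : (4 : ℤ) ≤ E.card := by exact_mod_cast hn4
  constructor
  · intro h
    have h1 : ((circs M E).card : ℤ) ≤ 3 * E.card - 12 := by linarith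
    -- n = 4
    rcases Nat.lt_or_ge E.card 6 with h6 | h6
    · rcases Nat.lt_or_ge E.card 5 with h5 | h5
      · exfalso
        have h4 : E.card = 4 := by omega
        rw [h4] at key h1
        have e1 : Nat.choose (4 - 1) 3 = 1 := rfl
        have e2 : delta (4 - 1) = 0 := rfl
        rw [e1, e2] at key
        have : ((circs M E).card : ℤ) ≤ 0 := by
          push_cast at h1
          linarith
        have : (circs M E).card ≤ 0 := by exact_mod_cast this
        omega
      · have h4 : E.card = 5 := by omega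
        refine ⟨h4, ?_⟩
        rw [h4] at key h1
        have e1 : Nat.choose (5 - 1) 3 = 4 := rfl
        have e2 : delta (5 - 1) = 1 := rfl
        rw [e1, e2] at key
        have : ((circs M E).card : ℤ) ≤ 3 := by
          push_cast at h1
          linarith
        have : (circs M E).card ≤ 3 := by exact_mod_cast this
        omega
    · exfalso
      have hd : delta (E.card - 1) + 3 ≤ E.card := by
        unfold delta; split_ifs <;> omega
      have hdZ : (delta (E.card - 1) : ℤ) + 3 ≤ E.card := by exact_mod_cast hd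
      have h6Z : (6 : ℤ) ≤ E.card := by exact_mod_cast h6
      nlinarith [mul_nonneg (sub_nonneg.2 h6Z) (sub_nonneg.2 h6Z),
        mul_nonneg (mul_nonneg (sub_nonneg.2 h6Z) (sub_nonneg.2 h6Z)) (sub_nonneg.2 h6Z)]
  · intro q hq h
    by_contra hcon
    push Not at hcon
    have hcase : ¬ (E.card - 1 = q + 1) ∨ E.card = q + 2 := by omega
    have e4 : ((E.card - 1 : ℕ) : ℤ) = (E.card : ℤ) - 1 := by
      push_cast [Nat.cast_sub (show 1 ≤ E.card by omega)]
      ring
    by_cases h1 : E.card = q + 2
    · have h2 := hcon.1 h1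
      have e5 : E.card - 1 = q + 1 := by omega
      rw [e5] at key
      have h3 : (q + 1).choose 3 + 1 ≤ (circs M E).card + delta (q + 1) := by omega
      rw [e5] at e3
      have h4 : ((q + 1).choose 3 : ℤ) + 1 ≤ (circs M E).card + delta (q + 1) := by exact_mod_cast h3
      have h5 : (E.card : ℤ) = q + 2 := by exact_mod_cast h1
      rw [h5] at e3 h
      nlinarith
    · by_cases h2 : q = 5 ∧ E.card - 1 = 5
      · obtain ⟨rfl, h3⟩ := h2
        have h4 := hcon.2 rfl (by omega)
        have e5 : E.card = 6 := by omega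
        rw [e5] at key h
        have e1 : Nat.choose (6 - 1) 3 = 10 := rfl
        have e2 : delta (6 - 1) = 3 := rfl
        have e6 : delta (5 + 1) = 3 := rfl
        rw [e1, e2] at key
        rw [e6] at h
        have h7 : ((circs M E).card : ℤ) ≤ 7 := by
          push_cast at h
          linarith
        have : (circs M E).card ≤ 7 := by exact_mod_cast h7
        omega
      · have h3 := arith_delta_strict (E.card - 1) q (by omega) hq (by omega) h2
        rw [e4] at h3
        have e7 : ((E.card : ℤ) - 1) * ((E.card : ℤ) - 1 - 1) * ((E.card : ℤ) - 1 - 2) =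
            ((E.card : ℤ) - 1) * ((E.card : ℤ) - 2) * ((E.card : ℤ) - 3) := by ring
        rw [e7, ← e3] at h3
        linarith

end Pool.Agent.H952R3.Ext
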