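import Mathlib
import Pool.Agent.H952R3.Ext.AB
import Pool.Agent.H952R3.Ext.F

set_option autoImplicit false

namespace Pool.Agent.H952R3.Ext

open Pool.Agent.Helper766.Rad

variable {ι : Type} [DecidableEq ι]

/-- the linear bound -/
def Lq (q n r : ℕ) : ℤ := (q : ℤ) * (q - 1) * (3 * n - (q + 1) * r)

theorem sum_Lq {M : RankFn ι} {P : Finset (Finset ι)} {E : Finset ι} (h : Dec M P E) (q : ℕ) :
    ∑ A ∈ P, Lq q A.card (M.r A) = Lq q E.card (M.r E) := by
  obtain ⟨h1, h2, h3⟩ := h
  have h4 : E.card = ∑ A ∈ P, A.card := by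
    rw [← h2, Finset.card_biUnion]
    · rfl
    · intro A hA B hB hne
      exact h1 hA hB hne
  unfold Lq
  rw [← Finset.mul_sum, Finset.sum_sub_distrib, ← Finset.mul_sum, ← Finset.mul_sum, h4, ← h3]
  push_cast
  ring

theorem Dec.subset {M : RankFn ι} {P : Finset (Finset ι)} {E : Finset ι} (h : Dec M P E)
    {A : Finset ι} (hA : A ∈ P) : A ⊆ E := by
  rw [← h.2.1]; exact Finset.subset_biUnion_of_mem id hA

theorem NF.subset {M : RankFn ι} {E A : Finset ι} (h : NF M E) (hA : A ⊆ E) : NF M A :=
  fun F hF => h F (hF.trans hA)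

theorem r_pos {M : RankFn ι} {A : Finset ι} (hs : Simple M A) (hA : A.Nonempty) : 1 ≤ M.r A := by
  obtain ⟨x, hx⟩ := hA
  rw [← hs.1 x hx]
  exact M.mono' (Finset.singleton_subset_iff.mpr hx)

theorem card_one {M : RankFn ι} {A : Finset ι} (hs : Simple M A) (hA : A.Nonempty)
    (h1 : M.r A ≤ 1) : A.card = 1 := by
  by_contra hne
  have := Finset.card_pos.mpr hA
  obtain ⟨a, b, ha, hb, hab⟩ := Finset.one_lt_card_iff.mp (show 1 < A.card by omega)
  have h2 := hs.2 a ha b hb hab
  have h3 := M.mono' (show ({a, b} : Finset ι) ⊆ A by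
    intro w hw
    simp only [Finset.mem_insert, Finset.mem_singleton] at hw
    rcases hw with rfl | rfl <;> assumption)
  omega

theorem rank2_ge {M : RankFn ι} {A : Finset ι} (hs : Simple M A) (h2 : M.r A = 2) :
    A.card.choose 3 ≤ (circs M A).card := by
  rw [← Finset.card_powersetCard]
  apply Finset.card_le_card
  intro T hT
  rw [Finset.mem_powersetCard] at hT
  refine Plane.R3.circ3 M hs hT.1 hT.2 ?_
  have h3 := M.mono' hT.1
  have h4 := Plane.R3.two_le M hs hT.1 (by omega)
  omega

theorem rank2_type {M : RankFn ι} {A : Finset ι} (hs : Simple M A) (h2 : M.r A = 2) (q : ℕ)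
    (hq : 2 ≤ q) (h : 6 * ((circs M A).card : ℤ) ≤ Lq q A.card (M.r A)) :
    LineR M q A ∨ LineR M (q + 1) A := by
  have h1 := rank2_ge hs h2
  have h3 := choose3_six A.card
  have h4 : ((A.card.choose 3 : ℕ) : ℤ) ≤ (circs M A).card := by exact_mod_cast h1
  rw [h2] at h
  unfold Lq at h
  push_cast at h
  have h5 : ((A.card : ℤ) - q) * ((A.card : ℤ) - q - 1) * ((A.card : ℤ) + 2 * q - 2) ≤ 0 := by
    have e : ((A.card : ℤ) - q) * ((A.card : ℤ) - q - 1) * ((A.card : ℤ) + 2 * q - 2) =
      (A.card : ℤ) * (A.card - 1) * (A.card - 2) -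
        (q : ℤ) * (q - 1) * (3 * A.card - (q + 1) * 2) := by ring
    rw [e, ← h3]
    linarith
  have hqZ : (2 : ℤ) ≤ q := by exact_mod_cast hq
  have h6 : (0 : ℤ) < (A.card : ℤ) + 2 * q - 2 := by
    have : (0 : ℤ) ≤ A.card := by positivity
    linarith
  have h7 : ((A.card : ℤ) - q) * ((A.card : ℤ) - q - 1) ≤ 0 := by
    by_contra hcon
    push Not at hcon
    have := mul_pos hcon h6
    linarith
  unfold LineR
  rcases Nat.lt_or_ge A.card q with h8 | h8
  · exfalso
    have : (A.card : ℤ) + 1 ≤ q := by exact_mod_cast h8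
    have := mul_pos_of_neg_of_neg (show (A.card : ℤ) - q < 0 by linarith)
      (show (A.card : ℤ) - q - 1 < 0 by linarith)
    linarith
  · rcases Nat.lt_or_ge (q + 1) A.card with h9 | h9
    · exfalso
      have : (q : ℤ) + 1 + 1 ≤ A.card := by exact_mod_cast h9
      have := mul_pos (show (0 : ℤ) < (A.card : ℤ) - q by linarith)
        (show (0 : ℤ) < (A.card : ℤ) - q - 1 by linarith)
      linarith
    · have : A.card = q ∨ A.card = q + 1 := by omega
      tauto

theorem type2 {M : RankFn ι} {A : Finset ι} (hs : Simple M A) (hA : A.Nonempty)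
    (hc : Conn M A) (h : 6 * ((circs M A).card : ℤ) ≤ Lq 2 A.card (M.r A)) :
    A.card = 1 ∨ IsCirc M A := by
  by_cases h1 : A.card = 1
  · exact Or.inl h1
  · right
    have h2 : 2 ≤ A.card := by
      have := Finset.card_pos.mpr hA
      omega
    obtain ⟨x, hx⟩ := hA
    have hce := Finset.card_erase_add_one hx
    have hcx := card_circs_del M A x
    have hrx := (hc.nl h2 hx).2
    have h3 := hc.nullity_le hx
    have h4 := main_even (hs.subset (Finset.erase_subset x A)) 2
    rw [hrx] at h4
    have h5 := r_le_card M (A.erase x)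
    unfold Lq at h
    push_cast at h h4
    have e1 : ((A.erase x).card : ℤ) + 1 = A.card := by exact_mod_cast hce
    have e2 : ((circs M A).card : ℤ) = (circs M (A.erase x)).card + cx M A x := by
      exact_mod_cast hcx
    have e3 : (A.card : ℤ) ≤ M.r A + cx M A x := by exact_mod_cast h3
    have h6 : (A.card : ℤ) ≤ M.r A + 1 := by linarith
    have h7 : A.card ≤ M.r A + 1 := by exact_mod_cast h6
    refine ⟨by omega, ?_⟩
    intro e he
    have h8 := (hc.nl h2 he).2
    have h9 := Finset.card_erase_add_one he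
    omega

theorem type3 (hD : TaskD) (hG : TaskG1) {M : RankFn ι} {A : Finset ι} (hs : Simple M A)
    (hF : NF M A) (hA : A.Nonempty) (hc : Conn M A)
    (h : 6 * ((circs M A).card : ℤ) ≤ Lq 3 A.card (M.r A)) :
    LineR M 3 A ∨ LineR M 4 A ∨ HookR M 5 A := by
  have hr1 := r_pos hs hA
  rcases Nat.lt_or_ge (M.r A) 2 with h2 | h2
  · exfalso
    have h3 : M.r A = 1 := by omega
    have h4 := card_one hs hA (by omega)
    rw [h3, h4] at h
    unfold Lq at h
    push_cast at h
    have : (0 : ℤ) ≤ (circs M A).card := by positivity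
    linarith
  · rcases Nat.lt_or_ge (M.r A) 3 with h3 | h3
    · have h4 := rank2_type hs (by omega) 3 (by norm_num) h
      tauto
    · rcases Nat.lt_or_ge (M.r A) 4 with h4 | h4
      · have h5 : M.r A = 3 := by omega
        have h6 := (taskF ι M A hs hF hc h5).1
        have h7 : 6 * ((circs M A).card : ℤ) ≤ (3 : ℤ) * (3 - 1) * (3 * A.card - (3 + 1) * 3) := by
          rw [h5] at h
          unfold Lq at h
          push_cast at h
          exact h
        obtain ⟨h8, h9⟩ := h6 h7
        exact Or.inr (Or.inr (hG ι M A hs h5 h8 h9))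
      · exfalso
        have h5 := hD ι M A hs hc h4 3 (le_refl 3)
        unfold Lq at h
        linarith

theorem delta_lt (q : ℕ) (hq : 4 ≤ q) : 6 * (delta (q + 1) : ℤ) < (q : ℤ) * (q - 1) * (q - 2) := by
  have h1 : delta (q + 1) ≤ q - 1 := by
    unfold delta; split_ifs <;> omega
  have h2 : (delta (q + 1) : ℤ) ≤ q - 1 := by
    have : delta (q + 1) + 1 ≤ q := by omega
    have : (delta (q + 1) : ℤ) + 1 ≤ q := by exact_mod_cast this
    linarith
  have hqZ : (4 : ℤ) ≤ q := by exact_mod_cast hq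
  have h3 : 6 * ((q : ℤ) - 1) < (q : ℤ) * (q - 2) * (q - 1) := by
    apply mul_lt_mul_of_pos_right _ (by linarith)
    nlinarith
  nlinarith

theorem type4 (hD : TaskD) {M : RankFn ι} {A : Finset ι} (hs : Simple M A)
    (hF : NF M A) (hA : A.Nonempty) (hc : Conn M A) (q : ℕ) (hq : 4 ≤ q)
    (h : 6 * ((circs M A).card : ℤ) ≤ Lq q A.card (M.r A)) :
    LineR M q A ∨ LineR M (q + 1) A := by
  have hr1 := r_pos hs hA
  have hqZ : (4 : ℤ) ≤ q := by exact_mod_cast hq
  rcases Nat.lt_or_ge (M.r A) 2 with h2 | h2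
  · exfalso
    have h3 : M.r A = 1 := by omega
    have h4 := card_one hs hA (by omega)
    rw [h3, h4] at h
    unfold Lq at h
    push_cast at h
    have h5 : (0 : ℤ) ≤ (circs M A).card := by positivity
    have h6 : 0 < (q : ℤ) * (q - 1) * (q - 2) :=
      mul_pos (mul_pos (by linarith) (by linarith)) (by linarith)
    nlinarith
  · rcases Nat.lt_or_ge (M.r A) 3 with h3 | h3
    · exact rank2_type hs (by omega) q (by omega) h
    · exfalso
      rcases Nat.lt_or_ge (M.r A) 4 with h4 | h4
      · have h5 : M.r A = 3 := by omega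
        have h6 := main_odd hs hF hA 1 (by omega) q
        have h7 := delta_lt q hq
        rw [h5] at h
        unfold Lq at h
        push_cast at h h6
        nlinarith
      · have h5 := hD ι M A hs hc h4 q (by omega)
        unfold Lq at h
        linarith

/-- the types of the blocks, `q ≥ 2`, without the special one -/
def Ordinary (M : RankFn ι) (q : ℕ) (A : Finset ι) : Prop :=
  if q = 2 then A.card = 1 ∨ IsCirc M A
  else if q = 3 then LineR M 3 A ∨ LineR M 4 A ∨ HookR M 5 A
  else LineR M q A ∨ LineR M (q + 1) A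

/-- the special block -/
def SpecialR (M : RankFn ι) (q : ℕ) (A : Finset ι) : Prop :=
  if q = 4 then TriR M 6 4 A
  else if q = 5 then TriR M 6 4 A ∨ HookR M 7 A ∨ SevenR M A ∨ TriR M 7 6 A
  else HookR M (q + 2) A

theorem ordinary_of_conn (hD : TaskD) (hG : TaskG1) {M : RankFn ι} {A : Finset ι}
    (hs : Simple M A) (hF : NF M A) (hA : A.Nonempty) (hc : Conn M A) (q : ℕ) (hq : 2 ≤ q)
    (h : 6 * ((circs M A).card : ℤ) ≤ Lq q A.card (M.r A)) : Ordinary M q A := by
  unfold Ordinary
  split_ifs with h1 h2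
  · subst h1; exact type2 hs hA hc h
  · subst h2; exact type3 hD hG hs hF hA hc h
  · exact type4 hD hs hF hA hc q (by omega) h

theorem special_of_conn (hE : TaskE) (hG2 : TaskG2) (hG3 : TaskG3) (hG4 : TaskG4)
    {M : RankFn ι} {A : Finset ι} (hs : Simple M A) (hF : NF M A) (hA : A.Nonempty)
    (hc : Conn M A) (q : ℕ) (hq : 4 ≤ q) (a : ℕ) (hr : M.r A = 2 * a + 1)
    (h : 6 * ((circs M A).card : ℤ) + 6 * delta (q + 1) ≤
      (q : ℤ) * (q - 1) * (3 * ((A.card : ℤ) - 1) - 2 * a * (q + 1))) : SpecialR M q A := by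
  have hd : 1 ≤ delta (q + 1) := by unfold delta; split_ifs <;> omega
  have hdZ : (1 : ℤ) ≤ delta (q + 1) := by exact_mod_cast hd
  have hc0 : (0 : ℤ) ≤ (circs M A).card := by positivity
  obtain h1 | h1 | h1 : a = 0 ∨ a = 1 ∨ 2 ≤ a := by omega
  · exfalso
    subst h1
    have h4 := card_one hs hA (by omega)
    rw [h4] at h
    push_cast at h
    have e : (q : ℤ) * (q - 1) * (0 - 0 * (q + 1)) = 0 := by ring
    rw [e] at h
    linarith
  · subst h1
    have h3 : M.r A = 3 := by omega
    have h4 := (taskF ι M A hs hF hc h3).2 q hq (by push_cast at h; linarith)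
    unfold SpecialR
    rcases h4 with ⟨h5, h6⟩ | ⟨h5, h6, h7⟩
    · split_ifs with g1 g2
      · subst g1
        have e1 : delta (4 + 1) = 3 := rfl
        have e2 : (4 + 1).choose 3 = 10 := rfl
        rw [e1, e2] at h6
        exact hG2 ι M A hs h3 h5 (by omega)
      · subst g2
        have e1 : delta (5 + 1) = 3 := rfl
        have e2 : (5 + 1).choose 3 = 20 := rfl
        rw [e1, e2] at h6
        exact Or.inr (hG3 ι M A hs h3 h5 (by omega))
      · have h8 : 8 ≤ A.card := by omega
        have e1 : delta (q + 1) = A.card - 4 := by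
          unfold delta; split_ifs <;> omega
        have e2 : A.card - 1 = q + 1 := by omega
        have := hG4 ι M A hs h3 h8 (by rw [e2, ← e1]; exact h6)
        rw [h5] at this
        exact this
    · rw [if_neg (by omega), if_pos h5]
      exact Or.inl (hG2 ι M A hs h3 h6 h7)
  · exfalso
    have h2 := hE ι M A hs hF hc a h1 hr q hq
    linarith

theorem ordinary_le (hU1 : TaskU1) (hU4 : TaskU4) {M : RankFn ι} {A : Finset ι}
    (hs : Simple M A) (q : ℕ) (hq : 2 ≤ q) (h : Ordinary M q A) :
    6 * ((circs M A).card : ℤ) ≤ Lq q A.card (M.r A) := by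
  obtain ⟨u1, u2, u3⟩ := hU4 ι M A hs
  have line : ∀ k : ℕ, LineR M k A → 6 * ((circs M A).card : ℤ) ≤ (k : ℤ) * (k - 1) * (k - 2) := by
    intro k hk
    have h1 := u1 hk.2
    rw [hk.1] at h1
    rw [← choose3_six]
    have : ((circs M A).card : ℤ) ≤ ((k.choose 3 : ℕ) : ℤ) := by exact_mod_cast h1
    linarith
  unfold Ordinary at h
  split_ifs at h with h1 h2
  · subst h1
    unfold Lq
    rcases h with h | h
    · obtain ⟨x, hx⟩ := Finset.card_eq_one.mp h
      have h3 : M.r A = 1 := by
        rw [hx]; exact hs.1 x (by rw [hx]; simp)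
      rw [u2 h, h3, h]
      norm_num
    · have h4 := u3 h
      have h5 := h.r_add_one
      have h6 : (M.r A : ℤ) + 1 = A.card := by exact_mod_cast h5
      rw [← h6]
      have : ((circs M A).card : ℤ) ≤ 1 := by exact_mod_cast h4
      push_cast
      linarith
  · subst h2
    unfold Lq
    rcases h with h | h | h
    · have := line 3 h
      rw [h.1, h.2]
      push_cast at this ⊢
      linarith
    · have := line 4 h
      rw [h.1, h.2]
      push_cast at this ⊢
      linarith
    · have h3 := hU1 ι M A 5 hs (le_refl 5) h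
      obtain ⟨L, p, q', a, c1, c2, c3, c4, c5, c6, c7, c8, c9⟩ := h
      have c10 : A.card = 5 := by
        rw [c2, Finset.card_insert_of_notMem, Finset.card_insert_of_notMem c4]
        · omega
        · simp only [Finset.mem_insert, not_or]; exact ⟨c5, c3⟩
      have e1 : (5 - 2).choose 3 + (5 - 3).choose 2 + 1 = 3 := rfl
      rw [e1] at h3
      rw [c9, c10]
      have : ((circs M A).card : ℤ) ≤ 3 := by exact_mod_cast h3
      push_cast
      linarith
  · unfold Lq
    rcases h with h | h
    · have := line q h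
      rw [h.1, h.2]
      push_cast
      nlinarith
    · have := line (q + 1) h
      rw [h.1, h.2]
      push_cast at this ⊢
      nlinarith

theorem hook_card {M : RankFn ι} {A : Finset ι} {n : ℕ} (h : HookR M n A) : A.card = n := by
  obtain ⟨L, p, q', a, c1, c2, c3, c4, c5, c6, c7, c8, c9⟩ := h
  rw [c2, Finset.card_insert_of_notMem, Finset.card_insert_of_notMem c4]
  · omega
  · simp only [Finset.mem_insert, not_or]; exact ⟨c5, c3⟩

theorem hook_r {M : RankFn ι} {A : Finset ι} {n : ℕ} (h : HookR M n A) : M.r A = 3 := by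
  obtain ⟨L, p, q', a, c1, c2, c3, c4, c5, c6, c7, c8, c9⟩ := h
  exact c9

theorem special_le (hU1 : TaskU1) (hU2 : TaskU2) (hU3 : TaskU3) {M : RankFn ι} {A : Finset ι}
    (hs : Simple M A) (q : ℕ) (hq : 4 ≤ q) (h : SpecialR M q A) :
    M.r A = 3 ∧ 6 * ((circs M A).card : ℤ) + 6 * delta (q + 1) ≤
      (q : ℤ) * (q - 1) * (3 * ((A.card : ℤ) - 1) - 2 * (q + 1)) := by
  have tri6 : TriR M 6 4 A → (circs M A).card ≤ 7 := by
    intro h
    have h1 := hU2 ι M A hs h.2.1 (by rw [h.1]; norm_num) h.2.2.1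
    have h2 := h.2.2.2
    rw [h.1] at h1
    have e : Nat.choose 6 4 = 15 := rfl
    rw [e] at h1
    omega
  have tri7 : TriR M 7 6 A → (circs M A).card ≤ 17 := by
    intro h
    have h1 := hU2 ι M A hs h.2.1 (by rw [h.1]; norm_num) h.2.2.1
    have h2 := h.2.2.2
    rw [h.1] at h1
    have e : Nat.choose 7 4 = 35 := rfl
    rw [e] at h1
    omega
  unfold SpecialR at h
  split_ifs at h with h1 h2
  · subst h1
    refine ⟨h.2.1, ?_⟩
    have h3 : ((circs M A).card : ℤ) ≤ 7 := by exact_mod_cast tri6 h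
    have e : delta (4 + 1) = 3 := rfl
    rw [e, h.1]
    push_cast
    linarith
  · subst h2
    have e : delta (5 + 1) = 3 := rfl
    rw [e]
    rcases h with h | h | h | h
    · refine ⟨h.2.1, ?_⟩
      have h3 : ((circs M A).card : ℤ) ≤ 7 := by exact_mod_cast tri6 h
      rw [h.1]
      push_cast
      linarith
    · refine ⟨hook_r h, ?_⟩
      have h3 := hU1 ι M A 7 hs (by norm_num) h
      have e1 : (7 - 2).choose 3 + (7 - 3).choose 2 + 1 = 17 := rfl
      rw [e1] at h3
      have h3 : ((circs M A).card : ℤ) ≤ 17 := by exact_mod_cast h3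
      rw [hook_card h]
      push_cast
      linarith
    · refine ⟨h.2.1, ?_⟩
      have h3 : ((circs M A).card : ℤ) ≤ 17 := by exact_mod_cast hU3 ι M A hs h
      rw [h.1]
      push_cast
      linarith
    · refine ⟨h.2.1, ?_⟩
      have h3 : ((circs M A).card : ℤ) ≤ 17 := by exact_mod_cast tri7 h
      rw [h.1]
      push_cast
      linarith
  · refine ⟨hook_r h, ?_⟩
    have h3 := hU1 ι M A (q + 2) hs (by omega) h
    have e1 : q + 2 - 2 = q := by omega
    have e2 : q + 2 - 3 = (q - 3) + 2 := by omega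
    rw [e1, e2] at h3
    have e3 := choose3_six q
    have e4 := Plane.R3.choose2 (q - 3)
    have e5 : delta (q + 1) + 2 = q := by
      unfold delta; split_ifs <;> omega
    have e6 : (delta (q + 1) : ℤ) = q - 2 := by
      have : (delta (q + 1) : ℤ) + 2 = q := by exact_mod_cast e5
      linarith
    obtain ⟨k, hk⟩ : ∃ k, q = k + 3 := ⟨q - 3, by omega⟩
    have e7 : q - 3 = k := by omega
    rw [e7] at h3 e4
    have h4 : ((circs M A).card : ℤ) ≤ (q.choose 3 : ℕ) + ((k + 2).choose 2 : ℕ) + 1 := by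
      exact_mod_cast h3
    have e8 : (((k + 2).choose 2 : ℕ) : ℤ) * 2 = (k + 2) * (k + 1) := by exact_mod_cast e4
    have e9 : (k : ℤ) = q - 3 := by
      have : (q : ℤ) = k + 3 := by exact_mod_cast hk
      linarith
    rw [e9] at e8
    rw [e6, hook_card h]
    push_cast
    nlinarith

end Pool.Agent.H952R3.Ext
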