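import Mathlib
import Pool.Agent.H952R3.Ext.Types

set_option autoImplicit false

namespace Pool.Agent.H952R3.Ext

open Pool.Agent.Helper766.Rad

variable {ι : Type} [DecidableEq ι]

theorem each_le {P : Finset (Finset ι)} {f : Finset ι → ℤ} (h0 : ∀ A ∈ P, 0 ≤ f A)
    (hs : ∑ A ∈ P, f A ≤ 0) : ∀ A ∈ P, f A ≤ 0 := by
  intro A hA
  have := Finset.single_le_sum h0 hA
  linarith

/-- the excess over the linear bound -/
noncomputable def exc (M : RankFn ι) (q : ℕ) (A : Finset ι) : ℤ :=
  6 * ((circs M A).card : ℤ) - Lq q A.card (M.r A)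

theorem exc_nonneg {M : RankFn ι} {A : Finset ι} (hs : Simple M A) (q : ℕ) :
    0 ≤ exc M q A := by
  have := main_even hs q
  unfold exc Lq
  linarith

theorem exc_sum {M : RankFn ι} {P : Finset (Finset ι)} {E : Finset ι} (h : Dec M P E) (q : ℕ) :
    ∑ A ∈ P, exc M q A = exc M q E := by
  unfold exc
  rw [Finset.sum_sub_distrib, sum_Lq h q, taskB ι M E P h, ← Finset.mul_sum]
  push_cast
  ring

/-- even total rank -/
theorem odd_iff (hD : TaskD) (hG : TaskG1) (hU1 : TaskU1) (hU4 : TaskU4) {M : RankFn ι}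
    {E : Finset ι} (hs : Simple M E) (hF : NF M E) (m q : ℕ) (hr : M.r E ≤ 2 * m) (hq : 2 ≤ q) :
    6 * ((circs M E).card : ℤ) ≤ (q : ℤ) * (q - 1) * (3 * E.card - 2 * m * (q + 1)) ↔
    M.r E = 2 * m ∧ ∃ P : Finset (Finset ι), Dec M P E ∧ (∀ A ∈ P, A.Nonempty) ∧
      ∀ A ∈ P, Ordinary M q A := by
  have hqZ : (2 : ℤ) ≤ q := by exact_mod_cast hq
  have hrZ : (M.r E : ℤ) ≤ 2 * m := by exact_mod_cast hr
  have hcoef : (0 : ℤ) < (q : ℤ) * (q - 1) * (q + 1) :=
    mul_pos (mul_pos (by linarith) (by linarith)) (by linarith)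
  constructor
  · intro h
    obtain ⟨P, hP, hP'⟩ := taskA ι M E
    have h0 := exc_nonneg hs q
    have h1 : exc M q E ≤ - ((q : ℤ) * (q - 1) * (q + 1) * (2 * m - M.r E)) := by
      unfold exc Lq
      have e : (q : ℤ) * (q - 1) * (3 * E.card - (q + 1) * M.r E) =
        (q : ℤ) * (q - 1) * (3 * E.card - 2 * m * (q + 1)) +
          (q : ℤ) * (q - 1) * (q + 1) * (2 * m - M.r E) := by ring
      rw [e]
      linarith
    have h2 : (2 * (m : ℤ) - M.r E) ≤ 0 := by
      by_contra hcon
      push Not at hcon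
      have := mul_pos hcoef hcon
      linarith
    have h3 : (M.r E : ℤ) = 2 * m := by linarith
    have h4 : M.r E = 2 * m := by exact_mod_cast h3
    refine ⟨h4, P, hP, fun A hA => (hP' A hA).1, ?_⟩
    have h5 : ∑ A ∈ P, exc M q A ≤ 0 := by
      rw [exc_sum hP, ]
      rw [h3] at h1
      have e : (q : ℤ) * (q - 1) * (q + 1) * (2 * m - 2 * m) = 0 := by ring
      rw [e] at h1
      linarith
    have h6 := each_le (fun A hA => exc_nonneg (hs.subset (hP.subset hA)) q) h5
    intro A hA
    have h7 := h6 A hA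
    unfold exc at h7
    exact ordinary_of_conn hD hG (hs.subset (hP.subset hA)) (hF.subset (hP.subset hA))
      (hP' A hA).1 (hP' A hA).2 q hq (by linarith)
  · rintro ⟨h1, P, hP, -, hP'⟩
    have h2 : ∑ A ∈ P, exc M q A ≤ 0 := by
      apply Finset.sum_nonpos
      intro A hA
      have := ordinary_le hU1 hU4 (hs.subset (hP.subset hA)) q hq (hP' A hA)
      unfold exc
      linarith
    rw [exc_sum hP] at h2
    unfold exc Lq at h2
    rw [h1] at h2
    push_cast at h2
    have e : (q : ℤ) * (q - 1) * (3 * E.card - (q + 1) * (2 * m)) =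
      (q : ℤ) * (q - 1) * (3 * E.card - 2 * m * (q + 1)) := by ring
    rw [e] at h2
    linarith

/-- odd total rank -/
theorem even_iff (hD : TaskD) (hE : TaskE) (hG1 : TaskG1) (hG2 : TaskG2) (hG3 : TaskG3)
    (hG4 : TaskG4) (hU1 : TaskU1) (hU2 : TaskU2) (hU3 : TaskU3) (hU4 : TaskU4) {M : RankFn ι}
    {E : Finset ι} (hs : Simple M E) (hF : NF M E) (m q : ℕ)
    (hr : M.r E ≤ 2 * m + 1) (hq : 2 ≤ q) :
    6 * ((circs M E).card : ℤ) + 6 * delta (q + 1) ≤
      (q : ℤ) * (q - 1) * (3 * ((E.card : ℤ) - 1) - 2 * m * (q + 1)) ↔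
    M.r E = 2 * m + 1 ∧ ∃ P : Finset (Finset ι), Dec M P E ∧ (∀ A ∈ P, A.Nonempty) ∧
      if q ≤ 3 then ∀ A ∈ P, Ordinary M q A
      else ∃ B ∈ P, SpecialR M q B ∧ ∀ A ∈ P, A ≠ B → Ordinary M q A := by
  have hqZ : (2 : ℤ) ≤ q := by exact_mod_cast hq
  have hcoef : (0 : ℤ) < (q : ℤ) * (q - 1) * (q + 1) :=
    mul_pos (mul_pos (by linarith) (by linarith)) (by linarith)
  have hcoef2 : (0 : ℤ) < (q : ℤ) * (q - 1) := mul_pos (by linarith) (by linarith)
  constructor
  · intro h
    obtain ⟨P, hP, hP'⟩ := taskA ι M E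
    have h0 := exc_nonneg hs q
    have hd0 : (0 : ℤ) ≤ delta (q + 1) := by positivity
    have h4 : M.r E = 2 * m + 1 := by
      by_contra hne
      have hr' : M.r E ≤ 2 * m := by omega
      have hrZ : (M.r E : ℤ) ≤ 2 * m := by exact_mod_cast hr'
      unfold exc Lq at h0
      have e : (q : ℤ) * (q - 1) * (3 * E.card - (q + 1) * M.r E) =
        (q : ℤ) * (q - 1) * (3 * ((E.card : ℤ) - 1) - 2 * m * (q + 1)) +
          (q : ℤ) * (q - 1) * (q + 1) * (2 * m - M.r E) + 3 * ((q : ℤ) * (q - 1)) := by ring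
      rw [e] at h0
      have := mul_nonneg hcoef.le (show (0 : ℤ) ≤ 2 * m - M.r E by linarith)
      linarith
    have h3 : (M.r E : ℤ) = 2 * m + 1 := by exact_mod_cast h4
    have h1 : exc M q E ≤ (q : ℤ) * (q - 1) * (q - 2) - 6 * delta (q + 1) := by
      unfold exc Lq
      rw [h3]
      have e : (q : ℤ) * (q - 1) * (3 * E.card - (q + 1) * (2 * m + 1)) =
        (q : ℤ) * (q - 1) * (3 * ((E.card : ℤ) - 1) - 2 * m * (q + 1)) -
          (q : ℤ) * (q - 1) * (q - 2) := by ring
      rw [e]
      linarith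
    refine ⟨h4, P, hP, fun A hA => (hP' A hA).1, ?_⟩
    have hsum := exc_sum hP q
    have hpos : ∀ A ∈ P, 0 ≤ exc M q A := fun A hA => exc_nonneg (hs.subset (hP.subset hA)) q
    have ord : ∀ A ∈ P, exc M q A ≤ 0 → Ordinary M q A := by
      intro A hA h7
      unfold exc at h7
      exact ordinary_of_conn hD hG1 (hs.subset (hP.subset hA)) (hF.subset (hP.subset hA))
        (hP' A hA).1 (hP' A hA).2 q hq (by linarith)
    split_ifs with hq3
    · have h5 : ∑ A ∈ P, exc M q A ≤ 0 := by
        rw [hsum]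
        refine le_trans h1 ?_
        obtain rfl | rfl : q = 2 ∨ q = 3 := by omega
        · have : (0 : ℤ) ≤ delta (2 + 1) := by positivity
          push_cast
          linarith
        · have e : delta (3 + 1) = 1 := rfl
          rw [e]
          norm_num
      have h6 := each_le hpos h5
      exact fun A hA => ord A hA (h6 A hA)
    · have hq4 : 4 ≤ q := by omega
      -- a piece of odd rank
      obtain ⟨B, hB, hodd⟩ : ∃ B ∈ P, M.r B % 2 = 1 := by
        by_contra hcon
        push Not at hcon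
        have : ∀ A ∈ P, 2 ∣ M.r A := by
          intro A hA
          have := hcon A hA
          omega
        have h8 := Finset.dvd_sum this
        rw [hP.2.2, h4] at h8
        omega
      obtain ⟨a, ha⟩ : ∃ a, M.r B = 2 * a + 1 := ⟨M.r B / 2, by omega⟩
      have hBs := hs.subset (hP.subset hB)
      have hBF := hF.subset (hP.subset hB)
      have h8 := main_odd hBs hBF (hP' B hB).1 a (by omega) q
      have h9 : (q : ℤ) * (q - 1) * (q - 2) - 6 * delta (q + 1) ≤ exc M q B := by
        unfold exc Lq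
        rw [ha]
        push_cast
        have e : (q : ℤ) * (q - 1) * (3 * B.card - (q + 1) * (2 * a + 1)) =
          (q : ℤ) * (q - 1) * (3 * ((B.card : ℤ) - 1) - 2 * a * (q + 1)) -
            (q : ℤ) * (q - 1) * (q - 2) := by ring
        rw [e]
        linarith
      have h10 := Finset.add_sum_erase P (exc M q) hB
      have h11 : 0 ≤ ∑ A ∈ P.erase B, exc M q A :=
        Finset.sum_nonneg (fun A hA => hpos A (Finset.mem_of_mem_erase hA))
      have h12 : ∑ A ∈ P.erase B, exc M q A ≤ 0 := by linarith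
      have h13 := each_le (fun A hA => hpos A (Finset.mem_of_mem_erase hA)) h12
      refine ⟨B, hB, ?_, ?_⟩
      · apply special_of_conn hE hG2 hG3 hG4 hBs hBF (hP' B hB).1 (hP' B hB).2 q hq4 a ha
        have h14 : exc M q B ≤ (q : ℤ) * (q - 1) * (q - 2) - 6 * delta (q + 1) := by linarith
        unfold exc Lq at h14
        rw [ha] at h14
        push_cast at h14
        have e : (q : ℤ) * (q - 1) * (3 * B.card - (q + 1) * (2 * a + 1)) =
          (q : ℤ) * (q - 1) * (3 * ((B.card : ℤ) - 1) - 2 * a * (q + 1)) -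
            (q : ℤ) * (q - 1) * (q - 2) := by ring
        rw [e] at h14
        linarith
      · intro A hA hne
        exact ord A hA (h13 A (Finset.mem_erase.mpr ⟨hne, hA⟩))
  · rintro ⟨h1, P, hP, -, hP'⟩
    have hsum := exc_sum hP q
    have ordle : ∀ A ∈ P, Ordinary M q A → exc M q A ≤ 0 := by
      intro A hA h
      have := ordinary_le hU1 hU4 (hs.subset (hP.subset hA)) q hq h
      unfold exc
      linarith
    have h2 : exc M q E ≤ (q : ℤ) * (q - 1) * (q - 2) - 6 * delta (q + 1) := by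
      rw [← hsum]
      split_ifs at hP' with hq3
      · have h3 : ∑ A ∈ P, exc M q A ≤ 0 :=
          Finset.sum_nonpos (fun A hA => ordle A hA (hP' A hA))
        refine le_trans h3 ?_
        obtain rfl | rfl : q = 2 ∨ q = 3 := by omega
        · have e : delta (2 + 1) = 0 := rfl
          rw [e]
          norm_num
        · have e : delta (3 + 1) = 1 := rfl
          rw [e]
          norm_num
      · obtain ⟨B, hB, hBs, hrest⟩ := hP'
        have h10 := Finset.add_sum_erase P (exc M q) hB
        have h3 : ∑ A ∈ P.erase B, exc M q A ≤ 0 := by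
          apply Finset.sum_nonpos
          intro A hA
          rw [Finset.mem_erase] at hA
          exact ordle A hA.2 (hrest A hA.2 hA.1)
        obtain ⟨h4, h5⟩ := special_le hU1 hU2 hU3 (hs.subset (hP.subset hB)) q (by omega) hBs
        have h6 : exc M q B ≤ (q : ℤ) * (q - 1) * (q - 2) - 6 * delta (q + 1) := by
          unfold exc Lq
          rw [h4]
          push_cast
          have e : (q : ℤ) * (q - 1) * (3 * B.card - (q + 1) * 3) =
            (q : ℤ) * (q - 1) * (3 * ((B.card : ℤ) - 1) - 2 * (q + 1)) -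
              (q : ℤ) * (q - 1) * (q - 2) := by ring
          rw [e]
          linarith
        linarith
    unfold exc Lq at h2
    rw [h1] at h2
    push_cast at h2
    have e : (q : ℤ) * (q - 1) * (3 * E.card - (q + 1) * (2 * m + 1)) =
      (q : ℤ) * (q - 1) * (3 * ((E.card : ℤ) - 1) - 2 * m * (q + 1)) -
        (q : ℤ) * (q - 1) * (q - 2) := by ring
    rw [e] at h2
    linarith

end Pool.Agent.H952R3.Ext
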