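import Mathlib
import Pool.Agent.H952R3.Ext.Types

set_option autoImplicit false

namespace Pool.Agent.H952R3.Ext.Geo

open Pool.Agent.Helper766.Rad Pool.Agent.Helper766.Rad.AffRank

variable {d : ℕ}

/-- the affine rank function of `ℝ^d` -/
noncomputable def affM (d : ℕ) : RankFn (Fin d → ℝ) :=
  ⟨rkA, rkA_empty, fun _ _ h => rkA_mono h, rkA_insert, rkA_submod⟩

theorem affM_r (A : Finset (Fin d → ℝ)) : (affM d).r A = rkA A := rfl

theorem affM_circ (C : Finset (Fin d → ℝ)) : IsCirc (affM d) C ↔ AffCirc C := by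
  unfold IsCirc AffCirc
  show (rkA C < C.card ∧ ∀ e ∈ C, rkA (C.erase e) = (C.erase e).card) ↔ _
  have hC : rkA C < C.card ↔ ¬ AffineIndependent ℝ ((↑) : C → (Fin d → ℝ)) := by
    rw [← rkA_eq_card_iff]
    have := rkA_le_card C
    omega
  rw [hC]
  refine and_congr_right fun _ => ?_
  constructor
  · intro h e he D hDC heD
    have h1 := (rkA_eq_card_iff _).1 (h e he)
    have h2 : (D : Set (Fin d → ℝ)) ⊆ ((C.erase e : Finset _) : Set (Fin d → ℝ)) := by
      intro x hx
      rw [Finset.mem_coe, Finset.mem_erase]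
      exact ⟨fun hxe => heD (hxe ▸ hx), hDC hx⟩
    exact AffineIndependent.mono h1 h2
  · intro h e he
    rw [rkA_eq_card_iff]
    exact h e he _ (Finset.erase_subset _ _) (Finset.notMem_erase _ _)

theorem affM_simple (S : Finset (Fin d → ℝ)) : Simple (affM d) S := by
  refine ⟨fun a _ => ?_, fun a _ b _ hab => ?_⟩
  · show rkA {a} = 1
    have h0 : rkA ({a} : Finset (Fin d → ℝ)) = ({a} : Finset (Fin d → ℝ)).card := by
      rw [rkA_eq_card_iff]
      have : Subsingleton (({a} : Finset (Fin d → ℝ)) : Type) := by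
        constructor
        rintro ⟨x, hx⟩ ⟨y, hy⟩
        rw [Finset.mem_singleton] at hx hy
        subst hx; subst hy; rfl
      exact affineIndependent_of_subsingleton ℝ _
    rw [h0, Finset.card_singleton]
  · show rkA {a, b} = 2
    unfold rkA
    rw [Finset.coe_pair, Set.image_pair]
    exact finrank_pair hab

/-- the rank is the dimension of the affine hull plus one -/
theorem rkA_eq (A : Finset (Fin d → ℝ)) (hA : A.Nonempty) :
    rkA A = Module.finrank ℝ (vectorSpan ℝ (A : Set (Fin d → ℝ))) + 1 := by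
  obtain ⟨a, ha⟩ := hA
  have ha' : a ∈ (A : Set (Fin d → ℝ)) := ha
  set V := vectorSpan ℝ (A : Set (Fin d → ℝ)) with hV
  set W := Submodule.span ℝ (lft '' (A : Set (Fin d → ℝ))) with hW
  set U := Submodule.span ℝ {lft a} with hU
  set V' := Submodule.map (LinearMap.inr ℝ ℝ (Fin d → ℝ)) V with hV'
  have h1 : W = U ⊔ V' := by
    apply le_antisymm
    · rw [hW, Submodule.span_le]
      rintro x ⟨p, hp, rfl⟩
      have e : lft p = lft a + LinearMap.inr ℝ ℝ (Fin d → ℝ) (p - a) := by
        unfold lft
        simp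
      rw [e]
      apply Submodule.add_mem
      · exact Submodule.mem_sup_left (Submodule.subset_span rfl)
      · apply Submodule.mem_sup_right
        apply Submodule.mem_map_of_mem
        exact vsub_mem_vectorSpan ℝ hp ha'
    · apply sup_le
      · rw [hU, Submodule.span_le]
        rintro x rfl
        exact Submodule.subset_span ⟨a, ha', rfl⟩
      · rw [hV', hV, vectorSpan_eq_span_vsub_set_right ℝ ha', Submodule.map_span,
          Submodule.span_le]
        rintro x ⟨y, ⟨p, hp, rfl⟩, rfl⟩
        have e : LinearMap.inr ℝ ℝ (Fin d → ℝ) (p -ᵥ a) = lft p - lft a := by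
          unfold lft
          simp
        show LinearMap.inr ℝ ℝ (Fin d → ℝ) (p -ᵥ a) ∈ W
        rw [e]
        exact Submodule.sub_mem _ (Submodule.subset_span ⟨p, hp, rfl⟩)
          (Submodule.subset_span ⟨a, ha', rfl⟩)
  have h2 : U ⊓ V' = ⊥ := by
    rw [Submodule.eq_bot_iff]
    rintro x ⟨hx1, hx2⟩
    rw [SetLike.mem_coe, hU, Submodule.mem_span_singleton] at hx1
    obtain ⟨c, rfl⟩ := hx1
    rw [SetLike.mem_coe, hV', Submodule.mem_map] at hx2
    obtain ⟨y, -, hy⟩ := hx2
    have h3 := congrArg Prod.fst hy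
    unfold lft at h3
    simp at h3
    rw [← h3, zero_smul]
  have h3 := Submodule.finrank_sup_add_finrank_inf_eq U V'
  rw [h2, finrank_bot, add_zero, ← h1] at h3
  have h4 : Module.finrank ℝ U = 1 := by
    apply finrank_span_singleton
    intro h
    have := congrArg Prod.fst h
    unfold lft at this
    simp at this
  have h5 : Module.finrank ℝ V' = Module.finrank ℝ V :=
    ((Submodule.equivMapOfInjective _ LinearMap.inr_injective V).finrank_eq).symm
  unfold rkA
  rw [← hW, h3, h4, h5, add_comm]

theorem top_iff (S : Finset (Fin d → ℝ)) (hS : S.Nonempty) :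
    affineSpan ℝ (S : Set (Fin d → ℝ)) = ⊤ ↔ (affM d).r S = d + 1 := by
  rw [AffineSubspace.affineSpan_eq_top_iff_vectorSpan_eq_top_of_nonempty ℝ _ _
    (Finset.coe_nonempty.mpr hS), affM_r, rkA_eq S hS]
  constructor
  · intro h
    rw [h, finrank_top, Module.finrank_fin_fun]
  · intro h
    apply Submodule.eq_top_of_finrank_eq
    rw [Module.finrank_fin_fun]
    omega

end Pool.Agent.H952R3.Ext.Geo
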