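import Mathlib
import Pool.Agent.H952R3.Ext.Asm
import Pool.Agent.H952R3.Ext.Geo
import Pool.Agent.H811R3.RadonC
import Pool.Agent.H337R3.RadonD
import Pool.Agent.H531R3.RadonE
import Pool.Agent.H884R3.Ext.G12
import Pool.Agent.H271R3.Radon.G34
import Pool.Agent.H878.Radon.U24
import Pool.Agent.H87R3.Rad.TaskU13

set_option autoImplicit false

namespace Pool.Agent.H952R3.Ext.Final

open Pool.Agent.Helper766.Rad Pool.Agent.Helper766.Rad.AffRank Pool.Agent.H952R3.Ext
open Pool.Agent.H952R3.Ext.Geo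

variable {d : ℕ}

def Line (k : ℕ) (A : Finset (Fin d → ℝ)) : Prop :=
  A.card = k ∧ Collinear ℝ (A : Set (Fin d → ℝ))

def Circuit (C : Finset (Fin d → ℝ)) : Prop :=
  ¬ AffineIndependent ℝ ((↑) : C → (Fin d → ℝ)) ∧
    ∀ D : Finset (Fin d → ℝ), D ⊂ C → AffineIndependent ℝ ((↑) : D → (Fin d → ℝ))

def Hook (n : ℕ) (A : Finset (Fin d → ℝ)) : Prop :=
  ∃ (L : Finset (Fin d → ℝ)) (p q a : Fin d → ℝ), L.card + 2 = n ∧ A = insert p (insert q L) ∧
    p ∉ L ∧ q ∉ L ∧ p ≠ q ∧ a ∈ L ∧ Collinear ℝ (L : Set (Fin d → ℝ)) ∧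
    Collinear ℝ ({a, p, q} : Set (Fin d → ℝ)) ∧ ¬ Collinear ℝ (A : Set (Fin d → ℝ))

def Tri (n t : ℕ) (A : Finset (Fin d → ℝ)) : Prop :=
  A.card = n ∧ Module.finrank ℝ (vectorSpan ℝ (A : Set (Fin d → ℝ))) = 2 ∧
    (∀ F : Finset (Fin d → ℝ), F ⊆ A → F.card = 4 → ¬ Collinear ℝ (F : Set (Fin d → ℝ))) ∧
    t ≤ {T : Finset (Fin d → ℝ) | T ⊆ A ∧ T.card = 3 ∧ Collinear ℝ (T : Set (Fin d → ℝ))}.ncard

def Seven (A : Finset (Fin d → ℝ)) : Prop :=
  A.card = 7 ∧ Module.finrank ℝ (vectorSpan ℝ (A : Set (Fin d → ℝ))) = 2 ∧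
    ∃ L : Finset (Fin d → ℝ), L ⊆ A ∧ L.card = 4 ∧ Collinear ℝ (L : Set (Fin d → ℝ)) ∧
      (∀ p ∈ A, p ∉ L → ¬ Collinear ℝ (insert p (L : Set (Fin d → ℝ)))) ∧
      ∀ p ∈ A, ∀ q ∈ A, p ∉ L → q ∉ L → p ≠ q →
        ∃ a ∈ L, Collinear ℝ ({a, p, q} : Set (Fin d → ℝ))

def Ordinary (q : ℕ) (A : Finset (Fin d → ℝ)) : Prop :=
  if q = 2 then A.card = 1 ∨ Circuit A
  else if q = 3 then Line 3 A ∨ Line 4 A ∨ Hook 5 A
  else Line q A ∨ Line (q + 1) A

def Special (q : ℕ) (A : Finset (Fin d → ℝ)) : Prop :=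
  if q = 4 then Tri 6 4 A
  else if q = 5 then Tri 6 4 A ∨ Hook 7 A ∨ Seven A ∨ Tri 7 6 A
  else Hook (q + 2) A

def Splitting (S : Finset (Fin d → ℝ)) (P : Finset (Finset (Fin d → ℝ))) : Prop :=
  affineSpan ℝ (S : Set (Fin d → ℝ)) = ⊤ ∧ (∀ A ∈ P, A.Nonempty) ∧
    (P : Set (Finset (Fin d → ℝ))).PairwiseDisjoint id ∧ (∀ x, x ∈ S ↔ ∃ A ∈ P, x ∈ A) ∧
    ∑ A ∈ P, (Module.finrank ℝ (vectorSpan ℝ (A : Set (Fin d → ℝ))) + 1) = d + 1

def level (d s : ℕ) : ℕ :=
  if d % 2 = 1 then s / ((d + 1) / 2) else (s - 1 + (d / 2 - 1)) / (d / 2) - 1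

def Extremal (S : Finset (Fin d → ℝ)) : Prop :=
  ∃ P : Finset (Finset (Fin d → ℝ)), Splitting S P ∧
    if d % 2 = 1 ∨ level d S.card ≤ 3 then ∀ A ∈ P, Ordinary (level d S.card) A
    else ∃ B ∈ P, Special (level d S.card) B ∧
      ∀ A ∈ P, A ≠ B → Ordinary (level d S.card) A

/-! ### translation -/

theorem r2_iff {A : Finset (Fin d → ℝ)} (hA : 2 ≤ A.card) :
    (affM d).r A = 2 ↔ Collinear ℝ (A : Set (Fin d → ℝ)) := by
  have h1 := Plane.R3.two_le (affM d) (affM_simple A) (Finset.Subset.refl A) hA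
  rw [← rkA_two_iff, ← affM_r]
  omega

theorem r3_iff {A : Finset (Fin d → ℝ)} (hA : A.Nonempty) :
    (affM d).r A = 3 ↔ Module.finrank ℝ (vectorSpan ℝ (A : Set (Fin d → ℝ))) = 2 := by
  rw [affM_r, rkA_eq A hA]
  omega

theorem line_iff (k : ℕ) (hk : 2 ≤ k) (A : Finset (Fin d → ℝ)) :
    LineR (affM d) k A ↔ Line k A := by
  unfold LineR Line
  refine and_congr_right fun h => ?_
  exact r2_iff (by omega)

theorem circuit_iff (C : Finset (Fin d → ℝ)) : IsCirc (affM d) C ↔ Circuit C := by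
  rw [affM_circ]
  unfold AffCirc Circuit
  refine and_congr_right fun _ => ?_
  constructor
  · intro h D hD
    obtain ⟨h1, h2⟩ := Finset.ssubset_iff_of_subset hD.1 |>.mp hD
    exact h h1 h2.1 D hD.1 h2.2
  · intro h e he D hD heD
    apply h D
    rw [Finset.ssubset_iff_of_subset hD]
    exact ⟨e, he, heD⟩

theorem hook_iff (n : ℕ) (hn : 4 ≤ n) (A : Finset (Fin d → ℝ)) :
    HookR (affM d) n A ↔ Hook n A := by
  unfold HookR Hook
  have key : ∀ (L : Finset (Fin d → ℝ)) (p q a : Fin d → ℝ), L.card + 2 = n →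
      A = insert p (insert q L) → p ∉ L → q ∉ L → p ≠ q → a ∈ L →
      (((affM d).r L = 2 ∧ (affM d).r {a, p, q} = 2 ∧ (affM d).r A = 3) ↔
      (Collinear ℝ (L : Set (Fin d → ℝ)) ∧ Collinear ℝ ({a, p, q} : Set (Fin d → ℝ)) ∧
        ¬ Collinear ℝ (A : Set (Fin d → ℝ)))) := by
    intro L p q a c1 c2 c3 c4 c5 c6
    have h1 := r2_iff (A := L) (by omega)
    have hap : a ≠ p := fun h => c3 (h ▸ c6)
    have haq : a ≠ q := fun h => c4 (h ▸ c6)
    have hcard : ({a, p, q} : Finset (Fin d → ℝ)).card = 3 :=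
      Finset.card_eq_three.mpr ⟨a, p, q, hap, haq, c5, rfl⟩
    have h2 := r2_iff (A := {a, p, q}) (by omega)
    have h3 : ((({a, p, q} : Finset (Fin d → ℝ))) : Set (Fin d → ℝ)) = {a, p, q} := by simp
    rw [h3] at h2
    have h4 : A.card = n := by
      rw [c2, Finset.card_insert_of_notMem, Finset.card_insert_of_notMem c4]
      · omega
      · simp only [Finset.mem_insert, not_or]; exact ⟨c5, c3⟩
    have h5 := r2_iff (A := A) (by omega)
    rw [← h1, ← h2, ← h5]
    have h6 := Plane.R3.two_le (affM d) (affM_simple A) (Finset.Subset.refl A) (by omega)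
    have h7 := (affM d).submod L {a, p, q}
    have h8 : L ∪ {a, p, q} = A := by
      rw [c2]
      ext w
      simp only [Finset.mem_union, Finset.mem_insert, Finset.mem_singleton]
      constructor
      · rintro (h | rfl | rfl | rfl)
        · exact Or.inr (Or.inr h)
        · exact Or.inr (Or.inr c6)
        · exact Or.inl rfl
        · exact Or.inr (Or.inl rfl)
      · rintro (rfl | rfl | h)
        · exact Or.inr (Or.inr (Or.inl rfl))
        · exact Or.inr (Or.inr (Or.inr rfl))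
        · exact Or.inl h
    have h9 : 1 ≤ (affM d).r (L ∩ {a, p, q}) := by
      rw [← (affM_simple A).1 a (by rw [c2]; simp [c6])]
      apply (affM d).mono
      rw [Finset.singleton_subset_iff, Finset.mem_inter]
      exact ⟨c6, by simp⟩
    rw [h8] at h7
    constructor
    · rintro ⟨g1, g2, g3⟩
      exact ⟨g1, g2, by omega⟩
    · rintro ⟨g1, g2, g3⟩
      exact ⟨g1, g2, by omega⟩
  constructor
  · rintro ⟨L, p, q, a, c1, c2, c3, c4, c5, c6, c7⟩
    exact ⟨L, p, q, a, c1, c2, c3, c4, c5, c6, (key L p q a c1 c2 c3 c4 c5 c6).1 c7⟩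
  · rintro ⟨L, p, q, a, c1, c2, c3, c4, c5, c6, c7⟩
    exact ⟨L, p, q, a, c1, c2, c3, c4, c5, c6, (key L p q a c1 c2 c3 c4 c5 c6).2 c7⟩

theorem tri_iff (n t : ℕ) (hn : 1 ≤ n) (A : Finset (Fin d → ℝ)) :
    TriR (affM d) n t A ↔ Tri n t A := by
  unfold TriR Tri
  refine and_congr_right fun h => ?_
  have hne : A.Nonempty := by rw [← Finset.card_pos]; omega
  rw [r3_iff hne]
  refine and_congr_right fun h2 => ?_
  have h3 : (affM d).r A = 3 := (r3_iff hne).2 h2
  refine and_congr ?_ ?_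
  · constructor
    · intro g F hF hF4 hcol
      have := g F hF hF4
      rw [← r2_iff (by omega)] at hcol
      omega
    · intro g F hF hF4
      have g1 := g F hF hF4
      rw [← r2_iff (by omega)] at g1
      have g2 := Plane.R3.two_le (affM d) (affM_simple F) (Finset.Subset.refl F) (by omega)
      have g3 := (affM d).mono F A hF
      omega
  · have e : {T : Finset (Fin d → ℝ) | T ⊆ A ∧ T.card = 3 ∧ Collinear ℝ (T : Set (Fin d → ℝ))} =
        (((A.powersetCard 3).filter (fun T => (affM d).r T = 2) :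
          Finset (Finset (Fin d → ℝ))) : Set (Finset (Fin d → ℝ))) := by
      ext T
      rw [Finset.mem_coe, Finset.mem_filter, Finset.mem_powersetCard]
      constructor
      · rintro ⟨g1, g2, g3⟩
        exact ⟨⟨g1, g2⟩, (r2_iff (by omega)).2 g3⟩
      · rintro ⟨⟨g1, g2⟩, g3⟩
        exact ⟨g1, g2, (r2_iff (by omega)).1 g3⟩
    rw [e, Set.ncard_coe_finset]

theorem seven_iff (A : Finset (Fin d → ℝ)) : SevenR (affM d) A ↔ Seven A := by
  unfold SevenR Seven
  refine and_congr_right fun h => ?_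
  have hne : A.Nonempty := by rw [← Finset.card_pos]; omega
  rw [r3_iff hne]
  refine and_congr_right fun h2 => ?_
  have h3 : (affM d).r A = 3 := (r3_iff hne).2 h2
  have key : ∀ L : Finset (Fin d → ℝ), L ⊆ A → L.card = 4 →
      (((affM d).r L = 2 ∧ (∀ p ∈ A \ L, (affM d).r (insert p L) = 3) ∧
        ∀ p ∈ A \ L, ∀ q ∈ A \ L, p ≠ q → ∃ a ∈ L, (affM d).r {a, p, q} = 2) ↔
      (Collinear ℝ (L : Set (Fin d → ℝ)) ∧
      (∀ p ∈ A, p ∉ L → ¬ Collinear ℝ (insert p (L : Set (Fin d → ℝ)))) ∧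
      ∀ p ∈ A, ∀ q ∈ A, p ∉ L → q ∉ L → p ≠ q →
        ∃ a ∈ L, Collinear ℝ ({a, p, q} : Set (Fin d → ℝ)))) := by
    intro L hL hL4
    have k1 := r2_iff (A := L) (by omega)
    have k2 : ∀ p ∈ A, p ∉ L → ((affM d).r (insert p L) = 3 ↔
        ¬ Collinear ℝ (insert p (L : Set (Fin d → ℝ)))) := by
      intro p hp hpL
      have g1 : (insert p L).card = 5 := by
        rw [Finset.card_insert_of_notMem hpL, hL4]
      have g2 := r2_iff (A := insert p L) (by omega)
      rw [Finset.coe_insert] at g2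
      rw [← g2]
      have g3 := Plane.R3.two_le (affM d) (affM_simple (insert p L)) (Finset.Subset.refl _)
        (by omega)
      have g4 := (affM d).mono (insert p L) A (Finset.insert_subset hp hL)
      omega
    have k3 : ∀ p q a : Fin d → ℝ, p ∉ L → q ∉ L → p ≠ q → a ∈ L →
        ((affM d).r {a, p, q} = 2 ↔ Collinear ℝ ({a, p, q} : Set (Fin d → ℝ))) := by
      intro p q a hp hq hpq ha
      have hap : a ≠ p := fun h => hp (h ▸ ha)
      have haq : a ≠ q := fun h => hq (h ▸ ha)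
      have hcard : ({a, p, q} : Finset (Fin d → ℝ)).card = 3 :=
        Finset.card_eq_three.mpr ⟨a, p, q, hap, haq, hpq, rfl⟩
      have h2 := r2_iff (A := {a, p, q}) (by omega)
      have h3 : ((({a, p, q} : Finset (Fin d → ℝ))) : Set (Fin d → ℝ)) = {a, p, q} := by simp
      rw [h3] at h2
      exact h2
    rw [k1]
    refine and_congr_right fun _ => and_congr ?_ ?_
    · constructor
      · intro g p hp hpL
        exact (k2 p hp hpL).1 (g p (Finset.mem_sdiff.mpr ⟨hp, hpL⟩))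
      · intro g p hp
        rw [Finset.mem_sdiff] at hp
        exact (k2 p hp.1 hp.2).2 (g p hp.1 hp.2)
    · constructor
      · intro g p hp q hq hpL hqL hpq
        obtain ⟨a, ha, h4⟩ := g p (Finset.mem_sdiff.mpr ⟨hp, hpL⟩) q
          (Finset.mem_sdiff.mpr ⟨hq, hqL⟩) hpq
        exact ⟨a, ha, (k3 p q a hpL hqL hpq ha).1 h4⟩
      · intro g p hp q hq hpq
        rw [Finset.mem_sdiff] at hp hq
        obtain ⟨a, ha, h4⟩ := g p hp.1 q hq.1 hp.2 hq.2 hpq
        exact ⟨a, ha, (k3 p q a hp.2 hq.2 hpq ha).2 h4⟩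
  constructor
  · rintro ⟨L, c1, c2, c3⟩
    exact ⟨L, c1, c2, (key L c1 c2).1 c3⟩
  · rintro ⟨L, c1, c2, c3⟩
    exact ⟨L, c1, c2, (key L c1 c2).2 c3⟩

theorem ordinary_iff (q : ℕ) (hq : 2 ≤ q) (A : Finset (Fin d → ℝ)) :
    Ext.Ordinary (affM d) q A ↔ Ordinary q A := by
  unfold Ext.Ordinary Ordinary
  split_ifs with h1 h2
  · rw [circuit_iff]
  · rw [line_iff 3 (by norm_num), line_iff 4 (by norm_num), hook_iff 5 (by norm_num)]
  · rw [line_iff q (by omega), line_iff (q + 1) (by omega)]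

theorem special_iff (q : ℕ) (hq : 4 ≤ q) (A : Finset (Fin d → ℝ)) :
    SpecialR (affM d) q A ↔ Special q A := by
  unfold SpecialR Special
  split_ifs with h1 h2
  · rw [tri_iff 6 4 (by norm_num)]
  · rw [tri_iff 6 4 (by norm_num), hook_iff 7 (by norm_num), seven_iff, tri_iff 7 6 (by norm_num)]
  · rw [hook_iff (q + 2) (by omega)]

theorem splitting_iff (S : Finset (Fin d → ℝ)) (hS : S.Nonempty)
    (P : Finset (Finset (Fin d → ℝ))) :
    ((affM d).r S = d + 1 ∧ Dec (affM d) P S ∧ ∀ A ∈ P, A.Nonempty) ↔ Splitting S P := by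
  unfold Splitting Dec
  rw [top_iff S hS]
  have hsum : (∀ A ∈ P, A.Nonempty) → ∑ A ∈ P, (affM d).r A =
      ∑ A ∈ P, (Module.finrank ℝ (vectorSpan ℝ (A : Set (Fin d → ℝ))) + 1) := by
    intro h
    apply Finset.sum_congr rfl
    intro A hA
    rw [affM_r, rkA_eq A (h A hA)]
  have hun : P.biUnion id = S ↔ ∀ x, x ∈ S ↔ ∃ A ∈ P, x ∈ A := by
    rw [Finset.ext_iff]
    simp only [Finset.mem_biUnion, id]
    exact forall_congr' fun x => iff_comm
  rw [hun]
  constructor
  · rintro ⟨h1, ⟨h2, h3, h4⟩, h5⟩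
    refine ⟨h1, h5, h2, h3, ?_⟩
    rw [← hsum h5, h4, h1]
  · rintro ⟨h1, h5, h2, h3, h4⟩
    refine ⟨h1, ⟨h2, h3, ?_⟩, h5⟩
    rw [hsum h5, h4, h1]

/-- no Fano plane in `ℝ^d` -/
theorem nf (S : Finset (Fin d → ℝ)) : NF (affM d) S := by
  have hM2 := affM_simple (d := d)
  have hM4 : ∀ S : Finset (Fin d → ℝ), (affM d).r S ≤ 2 ↔ Collinear ℝ (S : Set (Fin d → ℝ)) :=
    fun S => rkA_two_iff S
  generalize affM d = M at hM2 hM4 ⊢
  intro F _ hF7 hF3 hF4
  have hnc : ¬ Collinear ℝ (F : Set (Fin d → ℝ)) := by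
    rw [← hM4 F]; omega
  obtain ⟨a, ha, b, hb, hab, hcol⟩ := SG.sylvester_gallai F hnc
  set 𝒯 := (F.powersetCard 3).filter (fun T => M.r T = 2) with h𝒯
  have hinter : ∀ T ∈ 𝒯, ∀ T' ∈ 𝒯, ∀ P : Finset (Fin d → ℝ), P.card = 2 → P ⊆ T → P ⊆ T' →
      T = T' := by
    intro T hT T' hT' P hP hPT hPT'
    rw [h𝒯, Finset.mem_filter, Finset.mem_powersetCard] at hT hT'
    by_contra hne
    have hsub : M.r (T ∪ T') ≤ 2 := by
      have h7 := M.submod T T'
      have h8 : M.r P ≤ M.r (T ∩ T') := M.mono' (Finset.subset_inter hPT hPT')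
      obtain ⟨x, y, hxy, rfl⟩ := Finset.card_eq_two.mp hP
      have h9 := (hM2 F).2 x (hT.1.1 (hPT (by simp))) y (hT.1.1 (hPT (by simp))) hxy
      omega
    have hcard : 4 ≤ (T ∪ T').card := by
      by_contra hlt
      push Not at hlt
      have h10 : T = T ∪ T' := Finset.eq_of_subset_of_card_le Finset.subset_union_left
        (by rw [hT.1.2]; omega)
      have h11 : T' = T ∪ T' := Finset.eq_of_subset_of_card_le Finset.subset_union_right
        (by rw [hT'.1.2]; omega)
      exact hne (h10.trans h11.symm)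
    obtain ⟨R, hR, hR4⟩ := Finset.exists_subset_card_eq hcard
    have h12 := hF4 R (hR.trans (Finset.union_subset hT.1.1 hT'.1.1)) hR4
    have h13 := M.mono' hR
    omega
  have hsum : ∑ T ∈ 𝒯, (T.powersetCard 2).card = 𝒯.card * 3 := by
    rw [Finset.sum_const_nat]
    intro T hT
    rw [h𝒯, Finset.mem_filter, Finset.mem_powersetCard] at hT
    rw [Finset.card_powersetCard, hT.1.2]
    rfl
  have hdisj : ∀ T ∈ 𝒯, ∀ T' ∈ 𝒯, T ≠ T' →
      Disjoint (T.powersetCard 2) (T'.powersetCard 2) := by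
    intro T hT T' hT' hne
    rw [Finset.disjoint_left]
    intro P hP hP'
    rw [Finset.mem_powersetCard] at hP hP'
    exact hne (hinter T hT T' hT' P hP.2 hP.1 hP'.1)
  rw [← Finset.card_biUnion hdisj] at hsum
  have hab2 : ({a, b} : Finset (Fin d → ℝ)) ∈ F.powersetCard 2 := by
    rw [Finset.mem_powersetCard]
    refine ⟨?_, Finset.card_pair hab⟩
    intro w hw
    simp only [Finset.mem_insert, Finset.mem_singleton] at hw
    rcases hw with rfl | rfl <;> assumption
  have hsub : 𝒯.biUnion (fun T => T.powersetCard 2) ⊆ (F.powersetCard 2).erase {a, b} := by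
    intro P hP
    rw [Finset.mem_biUnion] at hP
    obtain ⟨T, hT, hPT⟩ := hP
    rw [Finset.mem_powersetCard] at hPT
    rw [h𝒯, Finset.mem_filter, Finset.mem_powersetCard] at hT
    rw [Finset.mem_erase, Finset.mem_powersetCard]
    refine ⟨?_, hPT.1.trans hT.1.1, hPT.2⟩
    rintro rfl
    obtain ⟨c, hc⟩ : (T \ {a, b}).Nonempty := by
      rw [← Finset.card_pos, Finset.card_sdiff_of_subset hPT.1, hT.1.2, hPT.2]
      norm_num
    rw [Finset.mem_sdiff] at hc
    have hTeq : T = {a, b, c} := by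
      symm
      apply Finset.eq_of_subset_of_card_le
      · intro w hw
        simp only [Finset.mem_insert, Finset.mem_singleton] at hw
        rcases hw with rfl | rfl | rfl
        · exact hPT.1 (by simp)
        · exact hPT.1 (by simp)
        · exact hc.1
      · rw [hT.1.2]
        have : ({a, b, c} : Finset (Fin d → ℝ)).card = 3 := by
          have h14 : ({a, b, c} : Finset (Fin d → ℝ)) = insert c {a, b} := by
            ext w; simp only [Finset.mem_insert, Finset.mem_singleton]; tauto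
          rw [h14, Finset.card_insert_of_notMem hc.2, hPT.2]
        omega
    have hcl : Collinear ℝ ({a, b, c} : Set (Fin d → ℝ)) := by
      have h15 := (hM4 T).mp (by rw [hT.2])
      rw [hTeq] at h15
      simpa using h15
    have := hcol c (hT.1.1 hc.1) hcl
    apply hc.2
    simp only [Finset.mem_insert, Finset.mem_singleton]
    exact this
  have hle := Finset.card_le_card hsub
  rw [hsum, Finset.card_erase_of_mem hab2, Finset.card_powersetCard, hF7] at hle
  have : Nat.choose 7 2 = 21 := rfl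
  omega

theorem circs_eq (S : Finset (Fin d → ℝ)) : (circs (affM d) S).card = numPrimitive S := by
  rw [Dict.numPrimitive_eq]
  congr 1
  classical
  ext C
  rw [mem_circs]
  unfold affCircs
  rw [Finset.mem_filter, Finset.mem_powerset, affM_circ C]

theorem tD : TaskD := Pool.Agent.H337R3.RadonD.t Pool.Agent.H811R3.RadonC.t

theorem odd_part (S : Finset (Fin d → ℝ)) (hodd : d % 2 = 1) (hS : d + 2 ≤ S.card) :
    numPrimitive S ≤ minCount d S.card ↔ Extremal S := by
  set m := (d + 1) / 2 with hm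
  have hmd : 2 * m = d + 1 := by omega
  have hm0 : 0 < m := by omega
  set q := S.card / m with hq
  have hq2 : 2 ≤ q := by
    rw [hq, Nat.le_div_iff_mul_le hm0]
    omega
  have hlev : level d S.card = q := by
    unfold level
    rw [if_pos hodd]
  have h2 := lines_eq m S.card q hm0 (Nat.mul_div_le _ _)
    (Nat.lt_mul_div_succ S.card hm0).le
  have hne : S.Nonempty := by rw [← Finset.card_pos]; omega
  have hr : (affM d).r S ≤ 2 * m := by rw [hmd]; exact rkA_le S
  have h3 := odd_iff tD Pool.Agent.H884R3.Ext.g1 Pool.Agent.H87R3.Rad.u1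
    Pool.Agent.H878.Radon.u4 (affM_simple S) (nf S) m q hr hq2
  have h4 : numPrimitive S ≤ minCount d S.card ↔
      6 * ((circs (affM d) S).card : ℤ) ≤ (q : ℤ) * (q - 1) * (3 * S.card - 2 * m * (q + 1)) := by
    unfold minCount
    rw [if_pos hodd, ← circs_eq, ← h2]
    constructor
    · intro h
      have : ((circs (affM d) S).card : ℤ) ≤ lines m S.card := by exact_mod_cast h
      linarith
    · intro h
      have : ((circs (affM d) S).card : ℤ) ≤ lines m S.card := by linarith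
      exact_mod_cast this
  rw [h4, h3, hmd]
  unfold Extremal
  rw [hlev]
  constructor
  · rintro ⟨g1, P, g2, g3, g4⟩
    refine ⟨P, (splitting_iff S hne P).1 ⟨g1, g2, g3⟩, ?_⟩
    rw [if_pos (Or.inl hodd)]
    exact fun A hA => (ordinary_iff q hq2 A).1 (g4 A hA)
  · rintro ⟨P, g1, g2⟩
    obtain ⟨k1, k2, k3⟩ := (splitting_iff S hne P).2 g1
    rw [if_pos (Or.inl hodd)] at g2
    exact ⟨k1, P, k2, k3, fun A hA => (ordinary_iff q hq2 A).2 (g2 A hA)⟩

theorem even_part (S : Finset (Fin d → ℝ)) (hd : 1 ≤ d) (heven : ¬ d % 2 = 1)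
    (hS : d + 2 ≤ S.card) :
    numPrimitive S ≤ minCount d S.card ↔ Extremal S := by
  set m := d / 2 with hm
  have hmd : d = 2 * m := by omega
  have hm0 : 0 < m := by omega
  set N := S.card - 1 with hN
  have hN1 : S.card = N + 1 := by omega
  set u := (N + (m - 1)) / m with hu
  have hu1 : m * u ≤ N + (m - 1) := Nat.mul_div_le _ _
  have hu2 : N + (m - 1) < m * (u + 1) := Nat.lt_mul_div_succ _ hm0
  have hu3 : 3 ≤ u := by
    rw [hu, Nat.le_div_iff_mul_le hm0]
    omega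
  obtain ⟨q, hq⟩ : ∃ q, u = q + 1 := ⟨u - 1, by omega⟩
  have hq2 : 2 ≤ q := by omega
  have hlev : level d S.card = q := by
    unfold level
    rw [if_neg heven, ← hm, ← hN, ← hu, hq]
    omega
  rw [hq] at hu1 hu2
  have e1 : m * (q + 1) = m * q + m := by ring
  have e2 : m * (q + 1 + 1) = m * (q + 1) + m := by ring
  have h2 := lines_eq m N q hm0 (by omega) (by omega)
  have hne : S.Nonempty := by rw [← Finset.card_pos]; omega
  have hr : (affM d).r S ≤ 2 * m + 1 := by
    have := rkA_le S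
    rw [affM_r]
    omega
  have h3 := even_iff tD Pool.Agent.H531R3.RadonE.t Pool.Agent.H884R3.Ext.g1
    Pool.Agent.H884R3.Ext.g2 G34.g3 G34.g4 Pool.Agent.H87R3.Rad.u1
    Pool.Agent.H878.Radon.u2 Pool.Agent.H87R3.Rad.u3 Pool.Agent.H878.Radon.u4
    (affM_simple S) (nf S) m q hr hq2
  have hNq : m * q + 1 ≤ N := by omega
  have hNqZ : (m : ℤ) * q + 1 ≤ N := by exact_mod_cast hNq
  have hqZ : (2 : ℤ) ≤ q := by exact_mod_cast hq2
  have hmZ : (1 : ℤ) ≤ m := by exact_mod_cast hm0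
  have hdl : delta (q + 1) ≤ lines m N := by
    have a1 : delta (q + 1) ≤ q + 1 := by unfold delta; split_ifs <;> omega
    have a2 : delta (q + 1) + 2 ≤ q + 1 := by unfold delta; split_ifs <;> omega
    have a3 : (delta (q + 1) : ℤ) ≤ q - 1 := by
      have : (delta (q + 1) : ℤ) + 2 ≤ q + 1 := by exact_mod_cast a2
      linarith
    have a4 : (q : ℤ) * (q - 1) * (q + 1) ≤ 6 * (lines m N : ℤ) := by
      rw [h2]
      apply mul_le_mul_of_nonneg_left _ (mul_nonneg (by linarith) (by linarith))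
      have : 0 ≤ ((m : ℤ) - 1) * (q - 2) := mul_nonneg (by linarith) (by linarith)
      nlinarith
    have a5 : 6 * (delta (q + 1) : ℤ) ≤ (q : ℤ) * (q - 1) * (q + 1) := by
      have : 6 * ((q : ℤ) - 1) ≤ (q : ℤ) * (q + 1) * (q - 1) := by
        apply mul_le_mul_of_nonneg_right _ (by linarith)
        nlinarith
      nlinarith
    have a6 : (delta (q + 1) : ℤ) ≤ (lines m N : ℤ) := by linarith
    exact_mod_cast a6
  have h4 : numPrimitive S ≤ minCount d S.card ↔
      6 * ((circs (affM d) S).card : ℤ) + 6 * delta (q + 1) ≤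
        (q : ℤ) * (q - 1) * (3 * ((S.card : ℤ) - 1) - 2 * m * (q + 1)) := by
    unfold minCount
    have e3 : (S.card : ℤ) - 1 = N := by rw [hN1]; push_cast; ring
    rw [if_neg heven, ← circs_eq, e3, ← h2, ← hm, ← hN, ← hu, hq]
    constructor
    · intro h
      have : (circs (affM d) S).card + delta (q + 1) ≤ lines m N := by omega
      have : ((circs (affM d) S).card : ℤ) + delta (q + 1) ≤ lines m N := by exact_mod_cast this
      linarith
    · intro h
      have : ((circs (affM d) S).card : ℤ) + delta (q + 1) ≤ lines m N := by linarith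
      have : (circs (affM d) S).card + delta (q + 1) ≤ lines m N := by exact_mod_cast this
      omega
  rw [h4, h3]
  have hmd1 : 2 * m + 1 = d + 1 := by omega
  rw [hmd1]
  unfold Extremal
  rw [hlev]
  constructor
  · rintro ⟨g1, P, g2, g3, g4⟩
    refine ⟨P, (splitting_iff S hne P).1 ⟨g1, g2, g3⟩, ?_⟩
    split_ifs at g4 with hq3
    · rw [if_pos (Or.inr hq3)]
      exact fun A hA => (ordinary_iff q hq2 A).1 (g4 A hA)
    · rw [if_neg (by tauto)]
      obtain ⟨B, hB, k1, k2⟩ := g4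
      exact ⟨B, hB, (special_iff q (by omega) B).1 k1,
        fun A hA hne => (ordinary_iff q hq2 A).1 (k2 A hA hne)⟩
  · rintro ⟨P, g1, g2⟩
    obtain ⟨k1, k2, k3⟩ := (splitting_iff S hne P).2 g1
    refine ⟨k1, P, k2, k3, ?_⟩
    split_ifs with hq3
    · rw [if_pos (Or.inr hq3)] at g2
      exact fun A hA => (ordinary_iff q hq2 A).2 (g2 A hA)
    · rw [if_neg (by tauto)] at g2
      obtain ⟨B, hB, k4, k5⟩ := g2
      exact ⟨B, hB, (special_iff q (by omega) B).2 k4,
        fun A hA hne => (ordinary_iff q hq2 A).2 (k5 A hA hne)⟩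

theorem final (hd : 1 ≤ d) (S : Finset (Fin d → ℝ)) (hS : d + 2 ≤ S.card) :
    (∀ T : Finset (Fin d → ℝ), T.card = S.card → numPrimitive S ≤ numPrimitive T) ↔
      Extremal S := by
  have hmain := main hd hS
  have h1 : (∀ T : Finset (Fin d → ℝ), T.card = S.card → numPrimitive S ≤ numPrimitive T) ↔
      numPrimitive S ≤ minCount d S.card := by
    constructor
    · intro h
      obtain ⟨T, hT1, hT2⟩ := hmain.1
      rw [← hT2]
      exact h T hT1
    · intro h T hT
      exact h.trans (hmain.2 ⟨T, hT, rfl⟩)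
  rw [h1]
  by_cases hodd : d % 2 = 1
  · exact odd_part S hodd hS
  · exact even_part S hd hodd hS

end Pool.Agent.H952R3.Ext.Final
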